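import Mathlib

/-!
# Bordered determinants of matrices with prescribed kernel vectors
-/

set_option autoImplicit false

namespace Pool.Agent.R442.Border

open Matrix Finset

variable {R : Type*} [CommRing R]

theorem det_border {α β : Type*} [Fintype α] [DecidableEq α] [Fintype β] [DecidableEq β]
    (A : Matrix β α R) (P : Matrix α α R) (Q : Matrix β α R) (C : Matrix α α R)
    (M : Matrix β β R) :
    (fromBlocks (Aᵀ * M * A + P * C * Pᵀ) (Aᵀ * M + P * C * Qᵀ) (M * A + Q * C * Pᵀ)
      (M + Q * C * Qᵀ)).det = (Pᵀ - Qᵀ * A).det ^ 2 * C.det * M.det := by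
  have h : fromBlocks (Aᵀ * M * A + P * C * Pᵀ) (Aᵀ * M + P * C * Qᵀ) (M * A + Q * C * Pᵀ)
      (M + Q * C * Qᵀ) =
      (fromBlocks Pᵀ Qᵀ A 1)ᵀ * fromBlocks C 0 0 M * fromBlocks Pᵀ Qᵀ A 1 := by
    rw [fromBlocks_transpose, fromBlocks_multiply, fromBlocks_multiply]
    simp only [transpose_transpose, Matrix.mul_zero, add_zero, zero_add, transpose_one,
      Matrix.one_mul, Matrix.mul_one]
    congr 1 <;> abel
  rw [h, det_mul, det_mul, det_transpose, det_fromBlocks_one₂₂, det_fromBlocks_zero₂₁]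
  ring

/-- the splitting of `Fin (m + 1)` -/
noncomputable def e1 (m : ℕ) : Unit ⊕ Fin m ≃ Fin (m + 1) :=
  Equiv.ofBijective (Sum.elim (fun _ => 0) Fin.succ) (by
    constructor
    · rintro (a | a) (b | b) h
      · rfl
      · exact absurd h.symm (Fin.succ_ne_zero b)
      · exact absurd h (Fin.succ_ne_zero a)
      · exact congrArg Sum.inr (Fin.succ_injective _ h)
    · intro b
      refine Fin.cases ⟨Sum.inl (), rfl⟩ (fun i => ⟨Sum.inr i, rfl⟩) b)

@[simp] theorem e1_inl (m : ℕ) (u : Unit) : e1 m (Sum.inl u) = 0 := rfl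
@[simp] theorem e1_inr (m : ℕ) (i : Fin m) : e1 m (Sum.inr i) = i.succ := rfl

/-- a matrix with zero row and column sums, plus the all ones matrix -/
theorem det_add_one (m : ℕ) (M : Matrix (Fin (m + 1)) (Fin (m + 1)) R)
    (hr : ∀ i, ∑ j, M i j = 0) (hc : ∀ j, ∑ i, M i j = 0) :
    (Matrix.of fun i j => M i j + 1).det =
      ((m + 1 : ℕ) : R) ^ 2 * (M.submatrix Fin.succ Fin.succ).det := by
  rw [← det_submatrix_equiv_self (e1 m)]
  have hr' : ∀ i, ∑ j : Fin m, M i j.succ = - M i 0 := by
    intro i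
    have := hr i
    rw [Fin.sum_univ_succ] at this
    exact eq_neg_of_add_eq_zero_right this
  have hc' : ∀ j, ∑ i : Fin m, M i.succ j = - M 0 j := by
    intro j
    have := hc j
    rw [Fin.sum_univ_succ] at this
    exact eq_neg_of_add_eq_zero_right this
  let A : Matrix (Fin m) Unit R := Matrix.of fun _ _ => (-1 : R)
  let P : Matrix Unit Unit R := 1
  let Q : Matrix (Fin m) Unit R := Matrix.of fun _ _ => (1 : R)
  let C : Matrix Unit Unit R := 1
  let N : Matrix (Fin m) (Fin m) R := M.submatrix Fin.succ Fin.succ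
  have h := det_border A P Q C N
  have h1 : (Matrix.of fun i j => M i j + 1).submatrix (e1 m) (e1 m) =
      fromBlocks (Aᵀ * N * A + P * C * Pᵀ) (Aᵀ * N + P * C * Qᵀ) (N * A + Q * C * Pᵀ)
      (N + Q * C * Qᵀ) := by
    ext i j
    rcases i with i | i <;> rcases j with j | j
    · simp only [submatrix_apply, e1_inl, Matrix.of_apply, fromBlocks_apply₁₁, Matrix.mul_one,
        transpose_one, Matrix.add_apply, Matrix.mul_apply, transpose_apply, A, N, P, C]
      simp only [neg_mul, one_mul, mul_neg, mul_one, sum_neg_distrib, Matrix.one_apply_eq]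
      simp only [neg_neg]
      rw [sum_congr rfl (fun x _ => hc' _), sum_neg_distrib, hr', neg_neg]
    · simp only [submatrix_apply, e1_inl, e1_inr, Matrix.of_apply, fromBlocks_apply₁₂,
        Matrix.mul_one, Matrix.one_mul, Matrix.add_apply, Matrix.mul_apply, transpose_apply,
        A, N, P, C, Q]
      simp only [neg_mul, one_mul, sum_neg_distrib]
      rw [hc', neg_neg]
    · simp only [submatrix_apply, e1_inl, e1_inr, Matrix.of_apply, fromBlocks_apply₂₁,
        Matrix.mul_one, transpose_one, Matrix.add_apply, Matrix.mul_apply, A, N, P, C, Q]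
      simp only [mul_neg, mul_one, sum_neg_distrib]
      rw [hr', neg_neg]
    · simp only [submatrix_apply, e1_inr, Matrix.of_apply, fromBlocks_apply₂₂,
        Matrix.mul_one, Matrix.add_apply, Matrix.mul_apply, transpose_apply, N, Q, C]
      simp
  rw [h1, h]
  have h2 : (Pᵀ - Qᵀ * A).det = ((m + 1 : ℕ) : R) := by
    rw [det_unique]
    simp only [transpose_one, Matrix.sub_apply, Matrix.mul_apply, transpose_apply, Matrix.of_apply,
      P, Q, A]
    simp
    ring
  rw [h2]
  simp only [C, N, det_one, mul_one]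

/-- the splitting of `Fin (m + 2)` -/
noncomputable def e2 (m : ℕ) : Fin 2 ⊕ Fin m ≃ Fin (m + 2) :=
  Equiv.ofBijective (Sum.elim (fun i => if i = 0 then 0 else 1) (fun j => j.succ.succ)) (by
    have h01 : (0 : Fin (m + 2)) ≠ 1 := by
      intro h
      have := congrArg Fin.val h
      simp at this
    have hs0 : ∀ j : Fin m, j.succ.succ ≠ 0 := fun j => Fin.succ_ne_zero _
    have hs1 : ∀ j : Fin m, j.succ.succ ≠ 1 := by
      intro j h
      have := congrArg Fin.val h
      simp at this
    constructor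
    · rintro (a | a) (b | b) h
      · fin_cases a <;> fin_cases b <;> simp_all
      · fin_cases a
        · exact absurd h.symm (hs0 b)
        · exact absurd h.symm (hs1 b)
      · fin_cases b
        · exact absurd h (hs0 a)
        · exact absurd h (hs1 a)
      · exact congrArg Sum.inr (Fin.succ_injective _ (Fin.succ_injective _ h))
    · intro b
      refine Fin.cases ⟨Sum.inl 0, rfl⟩ (fun i => ?_) b
      refine Fin.cases ⟨Sum.inl 1, rfl⟩ (fun i => ⟨Sum.inr i, rfl⟩) i)

@[simp] theorem e2_zero (m : ℕ) : e2 m (Sum.inl 0) = 0 := rfl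
@[simp] theorem e2_one (m : ℕ) : e2 m (Sum.inl 1) = 1 := rfl
@[simp] theorem e2_inr (m : ℕ) (i : Fin m) : e2 m (Sum.inr i) = i.succ.succ := rfl

/-- indicator of the even indices -/
def ev (i : ℕ) : R := if i % 2 = 0 then 1 else 0
/-- indicator of the odd indices -/
def od (i : ℕ) : R := if i % 2 = 0 then 0 else 1

theorem ev_add_two (i : ℕ) : (ev (i + 2) : R) = ev i := by
  unfold ev
  congr 1
  simp

theorem od_add_two (i : ℕ) : (od (i + 2) : R) = od i := by
  unfold od
  congr 1
  simp

theorem sum_ev (s : ℕ) : ∑ i ∈ range (2 * s), (ev i : R) = s := by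
  induction s with
  | zero => simp
  | succ s ih =>
    rw [show 2 * (s + 1) = 2 * s + 1 + 1 by ring, sum_range_succ, sum_range_succ, ih]
    unfold ev
    rw [if_pos (by omega), if_neg (by omega)]
    push_cast
    ring

theorem sum_od (s : ℕ) : ∑ i ∈ range (2 * s), (od i : R) = s := by
  induction s with
  | zero => simp
  | succ s ih =>
    rw [show 2 * (s + 1) = 2 * s + 1 + 1 by ring, sum_range_succ, sum_range_succ, ih]
    unfold od
    rw [if_pos (by omega), if_neg (by omega)]
    push_cast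
    ring

theorem pow_ev (i : ℕ) : ((-1) ^ i : R) * ev i = ev i := by
  unfold ev
  split_ifs with h
  · rw [Even.neg_one_pow (Nat.even_iff.2 h)]; ring
  · ring

theorem pow_od (i : ℕ) : ((-1) ^ i : R) * od i = - od i := by
  unfold od
  split_ifs with h
  · ring
  · rw [Odd.neg_one_pow (Nat.odd_iff.2 (by omega))]; ring

theorem det_add_two (s : ℕ) (S : Matrix (Fin (2 * s + 2)) (Fin (2 * s + 2)) R) (a b : R)
    (hre : ∀ i, ∑ j, S i j * ev (j : ℕ) = 0) (hro : ∀ i, ∑ j, S i j * od (j : ℕ) = 0)
    (hce : ∀ j, ∑ i : Fin (2 * s + 2), ev (i : ℕ) * S i j = 0)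
    (hco : ∀ j, ∑ i : Fin (2 * s + 2), od (i : ℕ) * S i j = 0) :
    (Matrix.of fun i j => S i j + (a + (-1) ^ (i : ℕ) * b * (-1) ^ (j : ℕ))).det =
      (2 * ((s + 1 : ℕ) : R) ^ 2) ^ 2 * (a * b) *
        (Matrix.of fun i j : Fin (2 * s) => S i.succ.succ j.succ.succ).det := by
  rw [← det_submatrix_equiv_self (e2 (2 * s))]
  have hv : ∀ j : Fin (2 * s), ((j.succ.succ : Fin (2 * s + 2)) : ℕ) = (j : ℕ) + 2 := by
    intro j
    rfl
  have h0 : ((0 : Fin (2 * s + 2)) : ℕ) = 0 := rfl
  have h1' : ((Fin.succ 0 : Fin (2 * s + 2)) : ℕ) = 1 := rfl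
  have h1'' : ((1 : Fin (2 * s + 2)) : ℕ) = 1 := rfl
  have ev0 : (ev 0 : R) = 1 := rfl
  have ev1 : (ev 1 : R) = 0 := rfl
  have od0 : (od 0 : R) = 0 := rfl
  have od1 : (od 1 : R) = 1 := rfl
  have hs1 : (Fin.succ 0 : Fin (2 * s + 2)) = 1 := rfl
  have hre' : ∀ i, ∑ j : Fin (2 * s), S i j.succ.succ * ev (j : ℕ) = - S i 0 := by
    intro i
    have := hre i
    rw [Fin.sum_univ_succ, Fin.sum_univ_succ] at this
    simp only [hv, h0, h1', ev0, ev1, ev_add_two, mul_one, mul_zero, zero_add] at this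
    exact eq_neg_of_add_eq_zero_right this
  have hro' : ∀ i, ∑ j : Fin (2 * s), S i j.succ.succ * od (j : ℕ) = - S i 1 := by
    intro i
    have := hro i
    rw [Fin.sum_univ_succ, Fin.sum_univ_succ] at this
    simp only [hv, h0, od0, od_add_two, mul_zero, zero_add, hs1, h1'', od1, mul_one] at this
    exact eq_neg_of_add_eq_zero_right this
  have hce' : ∀ j, ∑ i : Fin (2 * s), ev (i : ℕ) * S i.succ.succ j = - S 0 j := by
    intro j
    have := hce j
    rw [Fin.sum_univ_succ, Fin.sum_univ_succ] at this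
    simp only [hv, h0, h1', ev0, ev1, ev_add_two, one_mul, zero_mul, zero_add] at this
    exact eq_neg_of_add_eq_zero_right this
  have hco' : ∀ j, ∑ i : Fin (2 * s), od (i : ℕ) * S i.succ.succ j = - S 1 j := by
    intro j
    have := hco j
    rw [Fin.sum_univ_succ, Fin.sum_univ_succ] at this
    simp only [hv, h0, od0, od_add_two, zero_mul, zero_add, hs1, h1'', od1, one_mul] at this
    exact eq_neg_of_add_eq_zero_right this
  let A : Matrix (Fin (2 * s)) (Fin 2) R :=
    Matrix.of fun i j => if j = 0 then - ev (i : ℕ) else - od (i : ℕ)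
  let P : Matrix (Fin 2) (Fin 2) R := !![1, 1; 1, -1]
  let Q : Matrix (Fin (2 * s)) (Fin 2) R :=
    Matrix.of fun i j => if j = 0 then 1 else (-1) ^ (i : ℕ)
  let C : Matrix (Fin 2) (Fin 2) R := !![a, 0; 0, b]
  let N : Matrix (Fin (2 * s)) (Fin (2 * s)) R :=
    Matrix.of fun i j : Fin (2 * s) => S i.succ.succ j.succ.succ
  have h := det_border A P Q C N
  have hNA0 : ∀ i, ∑ j, N i j * A j 0 = S i.succ.succ 0 := by
    intro i
    simp only [N, A, Matrix.of_apply, if_true, mul_neg, sum_neg_distrib]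
    rw [hre', neg_neg]
  have hNA1 : ∀ i, ∑ j, N i j * A j 1 = S i.succ.succ 1 := by
    intro i
    simp only [N, A, Matrix.of_apply, one_ne_zero, if_false, mul_neg, sum_neg_distrib]
    rw [hro', neg_neg]
  have hAN0 : ∀ j, ∑ i, A i 0 * N i j = S 0 j.succ.succ := by
    intro j
    simp only [N, A, Matrix.of_apply, if_true, neg_mul, sum_neg_distrib]
    rw [hce', neg_neg]
  have hAN1 : ∀ j, ∑ i, A i 1 * N i j = S 1 j.succ.succ := by
    intro j
    simp only [N, A, Matrix.of_apply, one_ne_zero, if_false, neg_mul, sum_neg_distrib]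
    rw [hco', neg_neg]
  have hS0A0 : ∀ i, ∑ j : Fin (2 * s), S i j.succ.succ * A j 0 = S i 0 := by
    intro i
    simp only [A, Matrix.of_apply, if_true, mul_neg, sum_neg_distrib]
    rw [hre', neg_neg]
  have hS0A1 : ∀ i, ∑ j : Fin (2 * s), S i j.succ.succ * A j 1 = S i 1 := by
    intro i
    simp only [A, Matrix.of_apply, one_ne_zero, if_false, mul_neg, sum_neg_distrib]
    rw [hro', neg_neg]
  have h1 : (Matrix.of fun i j => S i j + (a + (-1) ^ (i : ℕ) * b * (-1) ^ (j : ℕ))).submatrix
      (e2 (2 * s)) (e2 (2 * s)) =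
      fromBlocks (Aᵀ * N * A + P * C * Pᵀ) (Aᵀ * N + P * C * Qᵀ) (N * A + Q * C * Pᵀ)
      (N + Q * C * Qᵀ) := by
    ext i j
    rcases i with i | i <;> rcases j with j | j
    · rw [fromBlocks_apply₁₁]
      fin_cases i <;> fin_cases j
      all_goals
        simp only [submatrix_apply, Matrix.of_apply, Matrix.add_apply, Matrix.mul_apply,
          transpose_apply, Fin.zero_eta, Fin.mk_one, e2_zero, e2_one, Fin.isValue, hAN0, hAN1,
          hS0A0, hS0A1]
        simp [P, C]
    · rw [fromBlocks_apply₁₂]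
      fin_cases i
      all_goals
        simp only [submatrix_apply, Matrix.of_apply, Matrix.add_apply, Matrix.mul_apply,
          transpose_apply, Fin.zero_eta, Fin.mk_one, e2_zero, e2_one, e2_inr, Fin.isValue, hAN0,
          hAN1, hv]
        simp [P, C, Q, pow_succ]
    · rw [fromBlocks_apply₂₁]
      fin_cases j
      all_goals
        simp only [submatrix_apply, Matrix.of_apply, Matrix.add_apply, Matrix.mul_apply,
          Fin.zero_eta, Fin.mk_one, e2_zero, e2_one, e2_inr, Fin.isValue, hNA0,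
          hNA1, hv]
        simp [P, C, Q, pow_succ]
    · rw [fromBlocks_apply₂₂]
      simp only [submatrix_apply, Matrix.of_apply, Matrix.add_apply, Matrix.mul_apply,
        e2_inr, hv]
      simp [C, Q, N, pow_succ]
  rw [h1, h]
  have h2 : (Pᵀ - Qᵀ * A).det = - (2 * ((s + 1 : ℕ) : R) ^ 2) := by
    have q00 : (Qᵀ * A) 0 0 = - (s : R) := by
      simp only [Matrix.mul_apply, transpose_apply, Q, A, Matrix.of_apply, if_true, one_mul,
        sum_neg_distrib]
      rw [Fin.sum_univ_eq_sum_range (fun i => (ev i : R)), sum_ev]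
    have q01 : (Qᵀ * A) 0 1 = - (s : R) := by
      simp only [Matrix.mul_apply, transpose_apply, Q, A, Matrix.of_apply, if_true, one_mul,
        sum_neg_distrib, one_ne_zero, if_false]
      rw [Fin.sum_univ_eq_sum_range (fun i => (od i : R)), sum_od]
    have q10 : (Qᵀ * A) 1 0 = - (s : R) := by
      simp only [Matrix.mul_apply, transpose_apply, Q, A, Matrix.of_apply, if_true, one_ne_zero,
        if_false, mul_neg, sum_neg_distrib, pow_ev]
      rw [Fin.sum_univ_eq_sum_range (fun i => (ev i : R)), sum_ev]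
    have q11 : (Qᵀ * A) 1 1 = (s : R) := by
      simp only [Matrix.mul_apply, transpose_apply, Q, A, Matrix.of_apply, one_ne_zero,
        if_false, mul_neg, pow_od, neg_neg]
      rw [Fin.sum_univ_eq_sum_range (fun i => (od i : R)), sum_od]
    rw [det_fin_two]
    simp only [Matrix.sub_apply, q00, q01, q10, q11, transpose_apply]
    simp [P]
    ring
  have h3 : C.det = a * b := by
    rw [det_fin_two]
    simp [C]
  rw [h2, h3, neg_sq]

end Pool.Agent.R442.Border
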