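import Mathlib
import Pool.Agent.R343.SunDet
import Pool.Agent.R442.Border

/-!
# Circulant matrices with `f (1 - i) = - f i`
-/

set_option autoImplicit false

namespace Pool.Agent.R442.Circ

open Matrix Finset Pool.Agent.R343.SunDet Pool.Agent.R442.Border

variable {s : ℕ}

/-- the sign character -/
def c (i : Fin (2 * s + 2)) : ℤ := (-1) ^ (i : ℕ)

theorem c_add (i j : Fin (2 * s + 2)) : c (i + j) = c i * c j := by
  unfold c
  rw [Fin.val_add, ← pow_add]
  have h : ((-1 : ℤ)) ^ (2 * s + 2) = 1 := Even.neg_one_pow ⟨s + 1, by ring⟩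
  rw [← pow_eq_pow_mod _ h]

theorem c_sq (i : Fin (2 * s + 2)) : c i * c i = 1 := by
  unfold c
  rw [← pow_add]
  exact Even.neg_one_pow ⟨i, rfl⟩

theorem c_zero : c (0 : Fin (2 * s + 2)) = 1 := rfl

theorem c_one : c (1 : Fin (2 * s + 2)) = -1 := by
  unfold c
  have : ((1 : Fin (2 * s + 2)) : ℕ) = 1 := rfl
  rw [this, pow_one]

theorem c_neg (i : Fin (2 * s + 2)) : c (-i) = c i := by
  have h := c_add (-i) i
  rw [neg_add_cancel, c_zero] at h
  have h2 := c_sq i
  calc c (-i) = c (-i) * (c i * c i) := by rw [h2, mul_one]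
    _ = (c (-i) * c i) * c i := by ring
    _ = c i := by rw [← h, one_mul]

theorem c_sub (i j : Fin (2 * s + 2)) : c (i - j) = c i * c j := by
  rw [sub_eq_add_neg, c_add, c_neg]

theorem sum_c : ∑ i : Fin (2 * s + 2), c i = 0 := by
  have h : ∑ i : Fin (2 * s + 2), c i = ∑ i : Fin (2 * s + 2), c (i + 1) :=
    (Equiv.sum_comp (Equiv.addRight (1 : Fin (2 * s + 2))) c).symm
  have h2 : ∑ i : Fin (2 * s + 2), c (i + 1) = - ∑ i : Fin (2 * s + 2), c i := by
    rw [← sum_neg_distrib]
    refine sum_congr rfl fun i _ => ?_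
    rw [c_add, c_one]
    ring
  rw [h2] at h
  omega

theorem ev_eq (i : Fin (2 * s + 2)) : 2 * (ev (i : ℕ) : ℤ) = 1 + c i := by
  unfold ev c
  split_ifs with h
  · rw [Even.neg_one_pow (Nat.even_iff.2 h)]; rfl
  · rw [Odd.neg_one_pow (Nat.odd_iff.2 (by omega))]; rfl

theorem od_eq (i : Fin (2 * s + 2)) : 2 * (od (i : ℕ) : ℤ) = 1 - c i := by
  unfold od c
  split_ifs with h
  · rw [Even.neg_one_pow (Nat.even_iff.2 h)]; rfl
  · rw [Odd.neg_one_pow (Nat.odd_iff.2 (by omega))]; rfl

/-- the determinant of `1 + shift + c cᵀ` -/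
theorem det_T : (Matrix.of fun i j : Fin (2 * s + 2) => (if i = j then (1 : ℤ) else 0) +
    (if j = i + 1 then 1 else 0) + c i * c j).det = ((2 * s + 2 : ℕ) : ℤ) ^ 2 := by
  have h1 : (Matrix.of fun i j : Fin (2 * s + 2) => (if i = j then (1 : ℤ) else 0) +
    (if j = i + 1 then 1 else 0) + c i * c j).det =
    (Matrix.of fun i j : Fin (2 * s + 2) => (Matrix.of fun i j : Fin (2 * s + 2) =>
      (if i = j then (1 : ℤ) else 0) - (if j = i + 1 then 1 else 0)) i j + 1).det := by
    have h2 : (Matrix.of fun i j : Fin (2 * s + 2) => (Matrix.of fun i j : Fin (2 * s + 2) =>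
      (if i = j then (1 : ℤ) else 0) - (if j = i + 1 then 1 else 0)) i j + 1) =
      Matrix.of fun i j => c i * (Matrix.of fun i j => c j *
        (Matrix.of fun i j : Fin (2 * s + 2) => (if i = j then (1 : ℤ) else 0) +
    (if j = i + 1 then 1 else 0) + c i * c j) i j) i j := by
      ext i j
      simp only [Matrix.of_apply]
      by_cases hij : i = j
      · subst hij
        rw [if_pos rfl]
        by_cases h3 : i = i + 1
        · exfalso
          have := congrArg (fun z => z - i) h3
          simp at this
        · rw [if_neg h3]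
          have := c_sq i
          linear_combination -(c i * c i + 2) * this
      · rw [if_neg hij]
        by_cases h3 : j = i + 1
        · rw [if_pos h3]
          subst h3
          rw [c_add, c_one]
          have := c_sq i
          linear_combination -(c i * c i) * this
        · rw [if_neg h3]
          have h4 := c_sq i
          have h5 := c_sq j
          linear_combination -(c j * c j) * h4 - h5
    rw [h2, det_mul_column, det_mul_row]
    have h6 : (∏ i : Fin (2 * s + 2), c i) * (∏ i : Fin (2 * s + 2), c i) = 1 := by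
      rw [← prod_mul_distrib]
      exact prod_eq_one fun i _ => c_sq i
    rw [← mul_assoc, h6, one_mul]
  rw [h1, det_add_one (2 * s + 1)]
  · have h3 : ((Matrix.of fun i j : Fin (2 * s + 1 + 1) =>
      (if i = j then (1 : ℤ) else 0) - (if j = i + 1 then 1 else 0)).submatrix Fin.succ
      Fin.succ).det = 1 := by
      rw [det_of_isUpperTriangular]
      · refine prod_eq_one fun i _ => ?_
        simp only [submatrix_apply, Matrix.of_apply, if_true]
        rw [if_neg]
        · ring
        · intro h
          have := congrArg (fun z => z - i.succ) h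
          simp at this
      · intro i j hij
        simp only [submatrix_apply, Matrix.of_apply]
        rw [if_neg, if_neg]
        · ring
        · intro h
          have h4 := congrArg Fin.val h
          rw [Fin.val_add] at h4
          simp only [Fin.val_succ, Fin.val_one] at h4
          have h5 : (j : ℕ) < (i : ℕ) := hij
          rcases Nat.lt_or_ge ((i : ℕ) + 1 + 1) (2 * s + 1 + 1) with h6 | h6
          · rw [Nat.mod_eq_of_lt h6] at h4
            omega
          · have : (i : ℕ) + 1 + 1 = 2 * s + 1 + 1 := by omega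
            rw [this, Nat.mod_self] at h4
            omega
        · intro h
          have h5 : (j : ℕ) < (i : ℕ) := hij
          have := Fin.succ_injective _ h
          rw [this] at h5
          omega
    rw [h3, mul_one]
  · intro i
    simp only [Matrix.of_apply, sum_sub_distrib]
    rw [Finset.sum_ite_eq, Finset.sum_ite_eq']
    simp
  · intro j
    simp only [Matrix.of_apply, sum_sub_distrib]
    rw [Finset.sum_ite_eq']
    have : ∀ i : Fin (2 * s + 1 + 1), (if j = i + 1 then (1 : ℤ) else 0) =
        if i = j - 1 then 1 else 0 := by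
      intro i
      have hh : (j = i + 1) = (i = j - 1) :=
        propext ⟨fun h => by rw [h]; abel, fun h => by rw [h]; abel⟩
      simp only [hh]
    simp only [this]
    rw [Finset.sum_ite_eq']
    simp

variable (f : Fin (2 * s + 2) → ℤ)

/-- the twisted sum -/
def BB : ℤ := ∑ i, c i * f i

theorem sum_right (i : Fin (2 * s + 2)) : ∑ j, f (i - j) * c j = c i * BB f := by
  have h := Equiv.sum_comp (Equiv.subLeft i) (fun j => f (i - j) * c j)
  rw [← h, BB, mul_sum]
  refine sum_congr rfl fun j _ => ?_
  simp only [Equiv.subLeft_apply, sub_sub_cancel]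
  rw [c_sub]
  ring

theorem sum_left (j : Fin (2 * s + 2)) : ∑ i, c i * f (i - j) = c j * BB f := by
  have h := Equiv.sum_comp (Equiv.addRight j) (fun i => c i * f (i - j))
  rw [← h, BB, mul_sum]
  refine sum_congr rfl fun i _ => ?_
  simp only [Equiv.coe_addRight, add_sub_cancel_right]
  rw [c_add]
  ring

theorem main (hf : ∀ i, f (1 - i) = - f i) :
    ((2 * s + 2 : ℕ) : ℤ) ^ 2 * (Matrix.of fun i j : Fin (2 * s + 2) => f (i - j) + 1).det =
      (2 * ((s + 1 : ℕ) : ℤ) ^ 2) ^ 2 * (2 * BB f) * (Matrix.of fun i j : Fin (2 * s) =>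
        f (i.succ.succ - j.succ.succ) - f (j.succ.succ - i.succ.succ)).det := by
  rw [← det_T, ← det_mul]
  have h0 : (Matrix.of fun i j : Fin (2 * s + 2) => (if i = j then (1 : ℤ) else 0) +
    (if j = i + 1 then 1 else 0) + c i * c j) *
      (Matrix.of fun i j : Fin (2 * s + 2) => f (i - j) + 1) =
      Matrix.of fun i j => (Matrix.of fun i j : Fin (2 * s + 2) => f (i - j) - f (j - i)) i j +
        (2 + (-1) ^ (i : ℕ) * BB f * (-1) ^ (j : ℕ)) := by
    ext i j
    rw [Matrix.mul_apply]
    simp only [Matrix.of_apply]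
    have h1 : ∀ k : Fin (2 * s + 2), ((if i = k then (1 : ℤ) else 0) +
        (if k = i + 1 then 1 else 0) + c i * c k) * (f (k - j) + 1) =
        (if i = k then (f (k - j) + 1) else 0) + (if k = i + 1 then (f (k - j) + 1) else 0) +
        (c i * (c k * f (k - j)) + c i * c k) := by
      intro k
      split_ifs <;> ring
    rw [sum_congr rfl (fun k _ => h1 k), sum_add_distrib, sum_add_distrib, Finset.sum_ite_eq,
      Finset.sum_ite_eq', sum_add_distrib, ← mul_sum, sum_left, ← mul_sum, sum_c]
    simp only [mem_univ, if_true]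
    have h2 : f (i + 1 - j) = - f (j - i) := by
      rw [← hf]
      congr 1
      abel
    rw [h2]
    change _ = _ + (2 + c i * BB f * c j)
    ring
  rw [h0]
  have e1 : ∀ i, ∑ x, f (i - x) = ∑ x, f x := fun i => Equiv.sum_comp (Equiv.subLeft i) f
  have e2 : ∀ i, ∑ x, f (x - i) = ∑ x, f x := fun i => Equiv.sum_comp (Equiv.subRight i) f
  have hz : ∀ i, ∑ j, (f (i - j) - f (j - i)) = 0 := by
    intro i
    rw [sum_sub_distrib, e1, e2, sub_self]
  have hz' : ∀ j, ∑ i, (f (i - j) - f (j - i)) = 0 := by
    intro i
    rw [sum_sub_distrib, e1, e2, sub_self]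
  have hl : ∀ i, ∑ j, c j * f (i - j) = c i * BB f := by
    intro i
    rw [← sum_right]
    exact sum_congr rfl fun j _ => mul_comm _ _
  have hw : ∀ i, ∑ j, (f (i - j) - f (j - i)) * c j = 0 := by
    intro i
    have : ∀ j, (f (i - j) - f (j - i)) * c j = f (i - j) * c j - c j * f (j - i) := by
      intro j; ring
    rw [sum_congr rfl (fun j _ => this j), sum_sub_distrib, sum_right, sum_left, sub_self]
  have hw' : ∀ j, ∑ i, c i * (f (i - j) - f (j - i)) = 0 := by
    intro j
    have : ∀ i, c i * (f (i - j) - f (j - i)) = c i * f (i - j) - c i * f (j - i) := by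
      intro i; ring
    rw [sum_congr rfl (fun i _ => this i), sum_sub_distrib, sum_left, hl, sub_self]
  rw [det_add_two s]
  · rfl
  · intro i
    have h : 2 * ∑ j, (Matrix.of fun i j : Fin (2 * s + 2) => f (i - j) - f (j - i)) i j *
        ev (j : ℕ) = 0 := by
      rw [mul_sum]
      have : ∀ j : Fin (2 * s + 2), 2 * ((Matrix.of fun i j : Fin (2 * s + 2) =>
          f (i - j) - f (j - i)) i j * ev (j : ℕ)) = (f (i - j) - f (j - i)) +
            (f (i - j) - f (j - i)) * c j := by
        intro j
        simp only [Matrix.of_apply]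
        linear_combination (f (i - j) - f (j - i)) * ev_eq j
      rw [sum_congr rfl (fun j _ => this j), sum_add_distrib, hz, hw, add_zero]
    omega
  · intro i
    have h : 2 * ∑ j, (Matrix.of fun i j : Fin (2 * s + 2) => f (i - j) - f (j - i)) i j *
        od (j : ℕ) = 0 := by
      rw [mul_sum]
      have : ∀ j : Fin (2 * s + 2), 2 * ((Matrix.of fun i j : Fin (2 * s + 2) =>
          f (i - j) - f (j - i)) i j * od (j : ℕ)) = (f (i - j) - f (j - i)) -
            (f (i - j) - f (j - i)) * c j := by
        intro j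
        simp only [Matrix.of_apply]
        linear_combination (f (i - j) - f (j - i)) * od_eq j
      rw [sum_congr rfl (fun j _ => this j), sum_sub_distrib, hz, hw, sub_zero]
    omega
  · intro j
    have h : 2 * ∑ i : Fin (2 * s + 2), ev (i : ℕ) *
        (Matrix.of fun i j : Fin (2 * s + 2) => f (i - j) - f (j - i)) i j = 0 := by
      rw [mul_sum]
      have : ∀ i : Fin (2 * s + 2), 2 * (ev (i : ℕ) * (Matrix.of fun i j : Fin (2 * s + 2) =>
          f (i - j) - f (j - i)) i j) = (f (i - j) - f (j - i)) +
            c i * (f (i - j) - f (j - i)) := by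
        intro i
        simp only [Matrix.of_apply]
        linear_combination (f (i - j) - f (j - i)) * ev_eq i
      rw [sum_congr rfl (fun i _ => this i), sum_add_distrib, hz', hw', add_zero]
    omega
  · intro j
    have h : 2 * ∑ i : Fin (2 * s + 2), od (i : ℕ) *
        (Matrix.of fun i j : Fin (2 * s + 2) => f (i - j) - f (j - i)) i j = 0 := by
      rw [mul_sum]
      have : ∀ i : Fin (2 * s + 2), 2 * (od (i : ℕ) * (Matrix.of fun i j : Fin (2 * s + 2) =>
          f (i - j) - f (j - i)) i j) = (f (i - j) - f (j - i)) -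
            c i * (f (i - j) - f (j - i)) := by
        intro i
        simp only [Matrix.of_apply]
        linear_combination (f (i - j) - f (j - i)) * od_eq i
      rw [sum_congr rfl (fun i _ => this i), sum_sub_distrib, hz', hw', sub_zero]
    omega

end Pool.Agent.R442.Circ
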