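import Mathlib
import Pool.Agent.R442.Circ

/-!
# Circulant matrices with `f (1 - i) = - f i` and zero twisted sum
-/

set_option autoImplicit false

namespace Pool.Agent.R442.Circ

open Matrix Finset Pool.Agent.R343.SunDet Pool.Agent.R442.Border

variable {s : ℕ} (f : Fin (2 * s + 2) → ℤ)

theorem det_skew (a b : ℤ) :
    (Matrix.of fun i j => (Matrix.of fun i j : Fin (2 * s + 2) => f (i - j) - f (j - i)) i j +
        (a + (-1) ^ (i : ℕ) * b * (-1) ^ (j : ℕ))).det =
      (2 * ((s + 1 : ℕ) : ℤ) ^ 2) ^ 2 * (a * b) * (Matrix.of fun i j : Fin (2 * s) =>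
        f (i.succ.succ - j.succ.succ) - f (j.succ.succ - i.succ.succ)).det := by
  have e1 : ∀ i, ∑ x, f (i - x) = ∑ x, f x := fun i => Equiv.sum_comp (Equiv.subLeft i) f
  have e2 : ∀ i, ∑ x, f (x - i) = ∑ x, f x := fun i => Equiv.sum_comp (Equiv.subRight i) f
  have hz : ∀ i, ∑ j, (f (i - j) - f (j - i)) = 0 := by
    intro i
    rw [sum_sub_distrib, e1, e2, sub_self]
  have hz' : ∀ j, ∑ i, (f (i - j) - f (j - i)) = 0 := by
    intro i
    rw [sum_sub_distrib, e1, e2, sub_self]
  have hl : ∀ i, ∑ j, c j * f (i - j) = c i * BB f := by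
    intro i
    rw [← sum_right]
    exact sum_congr rfl fun j _ => mul_comm _ _
  have hw : ∀ i, ∑ j, (f (i - j) - f (j - i)) * c j = 0 := by
    intro i
    have : ∀ j, (f (i - j) - f (j - i)) * c j = f (i - j) * c j - c j * f (j - i) := by
      intro j; ring
    rw [sum_congr rfl (fun j _ => this j), sum_sub_distrib, sum_right, sum_left, sub_self]
  have hw' : ∀ j, ∑ i, c i * (f (i - j) - f (j - i)) = 0 := by
    intro j
    have : ∀ i, c i * (f (i - j) - f (j - i)) = c i * f (i - j) - c i * f (j - i) := by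
      intro i; ring
    rw [sum_congr rfl (fun i _ => this i), sum_sub_distrib, sum_left, hl, sub_self]
  rw [det_add_two s]
  · rfl
  · intro i
    have h : 2 * ∑ j, (Matrix.of fun i j : Fin (2 * s + 2) => f (i - j) - f (j - i)) i j *
        ev (j : ℕ) = 0 := by
      rw [mul_sum]
      have : ∀ j : Fin (2 * s + 2), 2 * ((Matrix.of fun i j : Fin (2 * s + 2) =>
          f (i - j) - f (j - i)) i j * ev (j : ℕ)) = (f (i - j) - f (j - i)) +
            (f (i - j) - f (j - i)) * c j := by
        intro j
        simp only [Matrix.of_apply]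
        linear_combination (f (i - j) - f (j - i)) * ev_eq j
      rw [sum_congr rfl (fun j _ => this j), sum_add_distrib, hz, hw, add_zero]
    omega
  · intro i
    have h : 2 * ∑ j, (Matrix.of fun i j : Fin (2 * s + 2) => f (i - j) - f (j - i)) i j *
        od (j : ℕ) = 0 := by
      rw [mul_sum]
      have : ∀ j : Fin (2 * s + 2), 2 * ((Matrix.of fun i j : Fin (2 * s + 2) =>
          f (i - j) - f (j - i)) i j * od (j : ℕ)) = (f (i - j) - f (j - i)) -
            (f (i - j) - f (j - i)) * c j := by
        intro j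
        simp only [Matrix.of_apply]
        linear_combination (f (i - j) - f (j - i)) * od_eq j
      rw [sum_congr rfl (fun j _ => this j), sum_sub_distrib, hz, hw, sub_zero]
    omega
  · intro j
    have h : 2 * ∑ i : Fin (2 * s + 2), ev (i : ℕ) *
        (Matrix.of fun i j : Fin (2 * s + 2) => f (i - j) - f (j - i)) i j = 0 := by
      rw [mul_sum]
      have : ∀ i : Fin (2 * s + 2), 2 * (ev (i : ℕ) * (Matrix.of fun i j : Fin (2 * s + 2) =>
          f (i - j) - f (j - i)) i j) = (f (i - j) - f (j - i)) +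
            c i * (f (i - j) - f (j - i)) := by
        intro i
        simp only [Matrix.of_apply]
        linear_combination (f (i - j) - f (j - i)) * ev_eq i
      rw [sum_congr rfl (fun i _ => this i), sum_add_distrib, hz', hw', add_zero]
    omega
  · intro j
    have h : 2 * ∑ i : Fin (2 * s + 2), od (i : ℕ) *
        (Matrix.of fun i j : Fin (2 * s + 2) => f (i - j) - f (j - i)) i j = 0 := by
      rw [mul_sum]
      have : ∀ i : Fin (2 * s + 2), 2 * (od (i : ℕ) * (Matrix.of fun i j : Fin (2 * s + 2) =>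
          f (i - j) - f (j - i)) i j) = (f (i - j) - f (j - i)) -
            c i * (f (i - j) - f (j - i)) := by
        intro i
        simp only [Matrix.of_apply]
        linear_combination (f (i - j) - f (j - i)) * od_eq i
      rw [sum_congr rfl (fun i _ => this i), sum_sub_distrib, hz', hw', sub_zero]
    omega

/-- the case of zero twisted sum -/
theorem main2 (hf : ∀ i, f (1 - i) = - f i) (hB : BB f = 0) :
    ((2 * s + 2 : ℕ) : ℤ) ^ 2 * (Matrix.of fun i j : Fin (2 * s + 2) =>
      f (i - j) + (1 + c i * c j)).det =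
      (2 * ((s + 1 : ℕ) : ℤ) ^ 2) ^ 2 * (2 * ((2 * s + 2 : ℕ) : ℤ)) *
      (Matrix.of fun i j : Fin (2 * s) =>
        f (i.succ.succ - j.succ.succ) - f (j.succ.succ - i.succ.succ)).det := by
  rw [← det_T, ← det_mul, ← det_skew]
  congr 1
  ext i j
  rw [Matrix.mul_apply]
  simp only [Matrix.of_apply]
  have h1 : ∀ k : Fin (2 * s + 2), ((if i = k then (1 : ℤ) else 0) +
      (if k = i + 1 then 1 else 0) + c i * c k) * (f (k - j) + (1 + c k * c j)) =
      (if i = k then (f (k - j) + (1 + c k * c j)) else 0) +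
        (if k = i + 1 then (f (k - j) + (1 + c k * c j)) else 0) +
      (c i * (c k * f (k - j)) + c i * c k + c i * c j * (c k * c k)) := by
    intro k
    split_ifs <;> ring
  rw [sum_congr rfl (fun k _ => h1 k), sum_add_distrib, sum_add_distrib, Finset.sum_ite_eq,
    Finset.sum_ite_eq', sum_add_distrib, sum_add_distrib, ← mul_sum, sum_left, ← mul_sum, sum_c,
    ← mul_sum, sum_congr rfl (fun k _ => c_sq k), hB]
  simp only [mem_univ, if_true]
  have h2 : f (i + 1 - j) = - f (j - i) := by
    rw [← hf]
    congr 1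
    abel
  rw [h2, c_add, c_one]
  change _ = _ + (2 + c i * _ * c j)
  simp
  ring

end Pool.Agent.R442.Circ
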