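import Mathlib
import Pool.Agent.R343.SunDet4
import Pool.Agent.R442.Circ

/-!
# Power ordering of the residues modulo `p = 4 (s + 1) + 1`
-/

set_option autoImplicit false

namespace Pool.Agent.R442.Gen

open Matrix Finset Pool.Agent.R343.SunDet Pool.Agent.R442.Border Pool.Agent.R442.Circ

variable {p : ℕ} [hp : Fact p.Prime] {s : ℕ}

/-- the quadratic character modulo `p` as powers -/
theorem q_pow (hps : p = 4 * (s + 1) + 1) (a : ZMod p) :
    ((quadraticChar (ZMod p) a : ℤ) : ZMod p) = a ^ (2 * (s + 1)) := by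
  have h := quadraticChar_eq_pow_of_char_ne_two' (F := ZMod p) (by
    rw [ZMod.ringChar_zmod_n]; omega) a
  rw [h, ZMod.card]
  congr 1
  omega

theorem q_inj (hps : p = 4 * (s + 1) + 1) (a : ZMod p) (e : ℤ) (he : e = 1 ∨ e = -1)
    (h : a ^ (2 * (s + 1)) = (e : ZMod p)) : quadraticChar (ZMod p) a = e := by
  have h1 := q_pow hps a
  rw [h] at h1
  have h2 : (2 : ZMod p) ≠ 0 := two_ne_zero' p (by omega)
  have h3 : a ≠ 0 := by
    intro h0
    rw [h0, zero_pow (by omega)] at h
    rcases he with he | he <;> rw [he] at h <;> simp at h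
  rcases quadraticChar_dichotomy h3 with h4 | h4 <;> rcases he with he | he <;>
    rw [h4, he] at h1 ⊢
  · push_cast at h1
    exfalso
    apply h2
    linear_combination h1
  · push_cast at h1
    exfalso
    apply h2
    linear_combination -h1

variable (hps : p = 4 * (s + 1) + 1) (g : ZMod p) (hg : orderOf g = 4 * (s + 1))
include hps hg

theorem g_ne : g ≠ 0 := by
  intro h
  rw [h, orderOf_zero] at hg
  omega

theorem g_half : g ^ (2 * (s + 1)) = -1 := by
  have h1 : (g ^ (2 * (s + 1))) ^ 2 = 1 := by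
    rw [← pow_mul, show 2 * (s + 1) * 2 = 4 * (s + 1) by ring, ← hg]
    exact pow_orderOf_eq_one g
  rcases sq_eq_one_iff.1 h1 with h | h
  · exfalso
    have h2 := orderOf_dvd_of_pow_eq_one h
    rw [hg] at h2
    have := Nat.le_of_dvd (by omega) h2
    omega
  · exact h

theorem q_g : quadraticChar (ZMod p) g = -1 := by
  apply q_inj hps g (-1) (Or.inr rfl)
  rw [g_half hps g hg]
  push_cast
  rfl

theorem q_neg_one : quadraticChar (ZMod p) (-1) = 1 := by
  apply q_inj hps (-1) 1 (Or.inl rfl)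
  rw [pow_mul]
  norm_num

omit hps in
/-- the squares in the power ordering -/
theorem g2_pow : (g ^ 2) ^ (2 * s + 1 + 1) = 1 := by
  rw [← pow_mul, show 2 * (2 * s + 1 + 1) = 4 * (s + 1) by ring, ← hg]
  exact pow_orderOf_eq_one g

/-- the squares in the power ordering -/
def x (g : ZMod p) (i : Fin (2 * s + 2)) : ZMod p := (g ^ 2) ^ (i : ℕ)

omit hps in
theorem x_add (i j : Fin (2 * s + 2)) : x g (i + j) = x g i * x g j :=
  pow_fin_add (k := 2 * s + 1) (g2_pow g hg) i j

omit hps hg in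
theorem x_zero : x g (0 : Fin (2 * s + 2)) = 1 := by
  unfold x
  simp

omit hps hg in
theorem x_one : x g (1 : Fin (2 * s + 2)) = g ^ 2 := by
  unfold x
  have : ((1 : Fin (2 * s + 2)) : ℕ) = 1 := rfl
  rw [this, pow_one]

omit hps in
theorem x_ne (i : Fin (2 * s + 2)) : x g i ≠ 0 := by
  unfold x
  exact pow_ne_zero _ (pow_ne_zero _ (by
    intro h
    rw [h, orderOf_zero] at hg
    omega))

omit hps in
theorem x_sub (i j : Fin (2 * s + 2)) : x g (i - j) * x g j = x g i := by
  rw [← x_add g hg, sub_add_cancel]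

omit hps in
theorem q_x (i : Fin (2 * s + 2)) : quadraticChar (ZMod p) (x g i) = 1 := by
  unfold x
  rw [← pow_mul, mul_comm, pow_mul]
  apply quadraticChar_sq_one'
  apply pow_ne_zero
  intro h
  rw [h, orderOf_zero] at hg
  omega

/-- the kernel -/
def f (g : ZMod p) (i : Fin (2 * s + 2)) : ℤ := quadraticChar (ZMod p) (x g i + g)

theorem f_neg (i : Fin (2 * s + 2)) : f g (1 - i) = - f g i := by
  unfold f
  have h1 := q_x g hg i
  have h2 : quadraticChar (ZMod p) (x g (1 - i) + g) =
      quadraticChar (ZMod p) ((x g (1 - i) + g) * x g i) := by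
    rw [map_mul, h1, mul_one]
  have h3 : (x g (1 - i) + g) * x g i = g * (x g i + g) := by
    rw [add_mul, x_sub g hg, x_one]
    ring
  rw [h2, h3, map_mul, q_g hps g hg]
  ring

theorem xg_ne (i : Fin (2 * s + 2)) : x g i + g ≠ 0 := by
  intro h
  have h1 := q_x g hg i
  have h2 : x g i = (-1) * g := by linear_combination h
  rw [h2, map_mul, q_neg_one hps g hg, q_g hps g hg] at h1
  norm_num at h1

theorem f_sq (i : Fin (2 * s + 2)) : f g i = 1 ∨ f g i = -1 :=
  quadraticChar_dichotomy (xg_ne hps g hg i)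

omit hg in
theorem rep (y : ZMod p) (hy : y ≠ 0) : ∃ j : Fin (2 * s + 2),
    (((j : ℕ) + 1 : ℕ) : ZMod p) = y ∨ (((j : ℕ) + 1 : ℕ) : ZMod p) = -y := by
  have h1 : 0 < y.val := Nat.pos_of_ne_zero (by rwa [Ne, ZMod.val_eq_zero])
  have h2 := ZMod.val_lt y
  by_cases h : y.val ≤ 2 * s + 2
  · refine ⟨⟨y.val - 1, by omega⟩, Or.inl ?_⟩
    have : y.val - 1 + 1 = y.val := by omega
    simp only [this]
    exact ZMod.natCast_zmod_val y
  · refine ⟨⟨p - y.val - 1, by omega⟩, Or.inr ?_⟩
    have : p - y.val - 1 + 1 = p - y.val := by omega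
    simp only [this]
    rw [Nat.cast_sub h2.le, ZMod.natCast_self, ZMod.natCast_zmod_val, zero_sub]

theorem exists_sigma (i : Fin (2 * s + 2)) : ∃ j : Fin (2 * s + 2),
    (((j : ℕ) + 1 : ℕ) : ZMod p) ^ 2 = x g i ∧
      quadraticChar (ZMod p) (((j : ℕ) + 1 : ℕ) : ZMod p) = c i := by
  obtain ⟨j, hj⟩ := rep hps (g ^ (i : ℕ)) (pow_ne_zero _ (g_ne hps g hg))
  have hq : quadraticChar (ZMod p) (g ^ (i : ℕ)) = c i := by
    rw [map_pow, q_g hps g hg, c]
  refine ⟨j, ?_, ?_⟩
  · have : x g i = (g ^ (i : ℕ)) ^ 2 := by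
      unfold x
      rw [← pow_mul, ← pow_mul, mul_comm]
    rw [this]
    rcases hj with hj | hj <;> rw [hj]
    ring
  · rcases hj with hj | hj <;> rw [hj]
    · exact hq
    · rw [← neg_one_mul, map_mul, q_neg_one hps g hg, hq, one_mul]

theorem x_inj {i j : Fin (2 * s + 2)} (h : x g i = x g j) : i = j := by
  unfold x at h
  rw [← pow_mul, ← pow_mul] at h
  have h1 := pow_injOn_Iio_orderOf (x := g) (by
    rw [hg]
    have := i.2
    simp only [Set.mem_Iio]
    omega) (by
    rw [hg]
    have := j.2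
    simp only [Set.mem_Iio]
    omega) h
  apply Fin.ext
  omega

/-- the power ordering -/
noncomputable def sg (i : Fin (2 * s + 2)) : Fin (2 * s + 2) :=
  Classical.choose (exists_sigma hps g hg i)

theorem sg_sq (i : Fin (2 * s + 2)) :
    ((((sg hps g hg i : Fin (2 * s + 2)) : ℕ) + 1 : ℕ) : ZMod p) ^ 2 = x g i :=
  (Classical.choose_spec (exists_sigma hps g hg i)).1

theorem sg_q (i : Fin (2 * s + 2)) :
    quadraticChar (ZMod p) ((((sg hps g hg i : Fin (2 * s + 2)) : ℕ) + 1 : ℕ) : ZMod p) = c i :=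
  (Classical.choose_spec (exists_sigma hps g hg i)).2

theorem sg_inj : Function.Injective (sg hps g hg) := by
  intro i j h
  apply x_inj hps g hg
  rw [← sg_sq hps g hg, ← sg_sq hps g hg, h]

/-- the power ordering as a permutation -/
noncomputable def sgE : Fin (2 * s + 2) ≃ Fin (2 * s + 2) :=
  Equiv.ofBijective _ (Finite.injective_iff_bijective.1 (sg_inj hps g hg))

theorem nonresidue (d : ZMod p) (hd : quadraticChar (ZMod p) d = -1) :
    ∃ m : ℕ, d = g * (g ^ 2) ^ m := by
  have hd0 : d ≠ 0 := by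
    intro h
    rw [h, MulChar.map_zero] at hd
    omega
  have hgen : ∀ y : (ZMod p)ˣ, y ∈ Submonoid.powers (Units.mk0 g (g_ne hps g hg)) := by
    have hcard : Nat.card (ZMod p)ˣ = orderOf (Units.mk0 g (g_ne hps g hg)) := by
      rw [orderOf_units.symm, Units.val_mk0, hg, Nat.card_eq_fintype_card, ZMod.card_units]
      omega
    intro y
    rw [mem_powers_iff_mem_zpowers]
    have := (Subgroup.card_eq_iff_eq_top _).1 ((Nat.card_zpowers _).trans hcard.symm)
    rw [this]
    exact Subgroup.mem_top y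
  obtain ⟨t, ht⟩ := hgen (Units.mk0 d hd0)
  have ht' : g ^ t = d := by
    have := congrArg Units.val ht
    simpa using this
  have hodd : t % 2 = 1 := by
    by_contra hne
    have he : Even t := Nat.even_iff.2 (by omega)
    rw [← ht', map_pow, q_g hps g hg, he.neg_one_pow] at hd
    omega
  refine ⟨t / 2, ?_⟩
  rw [← ht', ← pow_mul, ← pow_succ']
  congr 1
  omega

end Pool.Agent.R442.Gen
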