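import Mathlib
import Pool.Agent.R442.Border

/-!
# Bordered determinants with two kernel vectors, general index type
-/

set_option autoImplicit false

namespace Pool.Agent.R442.Two

open Matrix Finset Pool.Agent.R442.Border

variable {β : Type*} [Fintype β] [DecidableEq β]

/-- the extended sign vector -/
def cc (c : β → ℤ) : Fin 2 ⊕ β → ℤ := Sum.elim ![1, -1] c

theorem det_two (k : ℤ) (c : β → ℤ) (hc : ∀ i, c i = 1 ∨ c i = -1) (hs : ∑ i, c i = 0)
    (hk : (Fintype.card β : ℤ) = 2 * (k - 1)) (X : Matrix (Fin 2 ⊕ β) (Fin 2 ⊕ β) ℤ) (a b : ℤ)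
    (h1 : ∀ i, ∑ j, X i j = 0) (h2 : ∀ i, ∑ j, X i j * cc c j = 0)
    (h3 : ∀ j, ∑ i, X i j = 0) (h4 : ∀ j, ∑ i, cc c i * X i j = 0) :
    (Matrix.of fun i j => X i j + (a + cc c i * b * cc c j)).det =
      (2 * k ^ 2) ^ 2 * (a * b) * (Matrix.of fun i j : β => X (Sum.inr i) (Sum.inr j)).det := by
  let e : β → ℤ := fun i => if c i = 1 then 1 else 0
  let o : β → ℤ := fun i => if c i = 1 then 0 else 1
  have he : ∀ i, 2 * e i = 1 + c i := by
    intro i
    simp only [e]
    rcases hc i with h | h <;> rw [h] <;> norm_num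
  have ho : ∀ i, 2 * o i = 1 - c i := by
    intro i
    simp only [o]
    rcases hc i with h | h <;> rw [h] <;> norm_num
  have hce : ∀ i, c i * e i = e i := by
    intro i
    simp only [e]
    rcases hc i with h | h <;> rw [h] <;> norm_num
  have hco : ∀ i, c i * o i = - o i := by
    intro i
    simp only [o]
    rcases hc i with h | h <;> rw [h] <;> norm_num
  have hse : ∑ i, e i = k - 1 := by
    have : 2 * ∑ i, e i = 2 * (k - 1) := by
      rw [mul_sum, sum_congr rfl (fun i _ => he i), sum_add_distrib, hs, ← hk]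
      simp
    omega
  have hso : ∑ i, o i = k - 1 := by
    have : 2 * ∑ i, o i = 2 * (k - 1) := by
      rw [mul_sum, sum_congr rfl (fun i _ => ho i), sum_sub_distrib, hs, ← hk]
      simp
    omega
  have r0 : ∀ i, ∑ j, X i (Sum.inr j) * e j = - X i (Sum.inl 0) := by
    intro i
    have e1 := h1 i
    have e2 := h2 i
    rw [Fintype.sum_sum_type, Fin.sum_univ_two] at e1 e2
    simp only [cc, Sum.elim_inl, Sum.elim_inr, Matrix.cons_val_zero, Matrix.cons_val_one,
      mul_one] at e2
    have e3 : 2 * ∑ j, X i (Sum.inr j) * e j = ∑ j, X i (Sum.inr j) +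
        ∑ j, X i (Sum.inr j) * c j := by
      rw [mul_sum, ← sum_add_distrib]
      exact sum_congr rfl fun j _ => by linear_combination X i (Sum.inr j) * he j
    linarith
  have r1 : ∀ i, ∑ j, X i (Sum.inr j) * o j = - X i (Sum.inl 1) := by
    intro i
    have e1 := h1 i
    have e2 := h2 i
    rw [Fintype.sum_sum_type, Fin.sum_univ_two] at e1 e2
    simp only [cc, Sum.elim_inl, Sum.elim_inr, Matrix.cons_val_zero, Matrix.cons_val_one,
      mul_one] at e2
    have e3 : 2 * ∑ j, X i (Sum.inr j) * o j = ∑ j, X i (Sum.inr j) -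
        ∑ j, X i (Sum.inr j) * c j := by
      rw [mul_sum, ← sum_sub_distrib]
      exact sum_congr rfl fun j _ => by linear_combination X i (Sum.inr j) * ho j
    linarith
  have l0 : ∀ j, ∑ i, e i * X (Sum.inr i) j = - X (Sum.inl 0) j := by
    intro j
    have e1 := h3 j
    have e2 := h4 j
    rw [Fintype.sum_sum_type, Fin.sum_univ_two] at e1 e2
    simp only [cc, Sum.elim_inl, Sum.elim_inr, Matrix.cons_val_zero, Matrix.cons_val_one,
      one_mul] at e2
    have e3 : 2 * ∑ i, e i * X (Sum.inr i) j = ∑ i, X (Sum.inr i) j +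
        ∑ i, c i * X (Sum.inr i) j := by
      rw [mul_sum, ← sum_add_distrib]
      exact sum_congr rfl fun i _ => by linear_combination X (Sum.inr i) j * he i
    linarith
  have l1 : ∀ j, ∑ i, o i * X (Sum.inr i) j = - X (Sum.inl 1) j := by
    intro j
    have e1 := h3 j
    have e2 := h4 j
    rw [Fintype.sum_sum_type, Fin.sum_univ_two] at e1 e2
    simp only [cc, Sum.elim_inl, Sum.elim_inr, Matrix.cons_val_zero, Matrix.cons_val_one,
      one_mul] at e2
    have e3 : 2 * ∑ i, o i * X (Sum.inr i) j = ∑ i, X (Sum.inr i) j -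
        ∑ i, c i * X (Sum.inr i) j := by
      rw [mul_sum, ← sum_sub_distrib]
      exact sum_congr rfl fun i _ => by linear_combination X (Sum.inr i) j * ho i
    linarith
  let A : Matrix β (Fin 2) ℤ := Matrix.of fun i j => if j = 0 then - e i else - o i
  let P : Matrix (Fin 2) (Fin 2) ℤ := !![1, 1; 1, -1]
  let Q : Matrix β (Fin 2) ℤ := Matrix.of fun i j => if j = 0 then 1 else c i
  let C : Matrix (Fin 2) (Fin 2) ℤ := !![a, 0; 0, b]
  let N : Matrix β β ℤ := Matrix.of fun i j : β => X (Sum.inr i) (Sum.inr j)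
  have h := det_border A P Q C N
  have hXA0 : ∀ i, ∑ j, X i (Sum.inr j) * A j 0 = X i (Sum.inl 0) := by
    intro i
    simp only [A, Matrix.of_apply, if_true, mul_neg, sum_neg_distrib]
    rw [r0, neg_neg]
  have hXA1 : ∀ i, ∑ j, X i (Sum.inr j) * A j 1 = X i (Sum.inl 1) := by
    intro i
    simp only [A, Matrix.of_apply, one_ne_zero, if_false, mul_neg, sum_neg_distrib]
    rw [r1, neg_neg]
  have hNA0 : ∀ i, ∑ j, N i j * A j 0 = X (Sum.inr i) (Sum.inl 0) := fun i => hXA0 (Sum.inr i)
  have hNA1 : ∀ i, ∑ j, N i j * A j 1 = X (Sum.inr i) (Sum.inl 1) := fun i => hXA1 (Sum.inr i)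
  have hAN0 : ∀ j, ∑ i, A i 0 * N i j = X (Sum.inl 0) (Sum.inr j) := by
    intro j
    simp only [N, A, Matrix.of_apply, if_true, neg_mul, sum_neg_distrib]
    rw [l0, neg_neg]
  have hAN1 : ∀ j, ∑ i, A i 1 * N i j = X (Sum.inl 1) (Sum.inr j) := by
    intro j
    simp only [N, A, Matrix.of_apply, one_ne_zero, if_false, neg_mul, sum_neg_distrib]
    rw [l1, neg_neg]
  have hM : (Matrix.of fun i j => X i j + (a + cc c i * b * cc c j)) =
      fromBlocks (Aᵀ * N * A + P * C * Pᵀ) (Aᵀ * N + P * C * Qᵀ) (N * A + Q * C * Pᵀ)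
      (N + Q * C * Qᵀ) := by
    ext i j
    rcases i with i | i <;> rcases j with j | j
    · rw [fromBlocks_apply₁₁]
      fin_cases i <;> fin_cases j
      all_goals
        simp only [Matrix.of_apply, Matrix.add_apply, Matrix.mul_apply,
          transpose_apply, Fin.zero_eta, Fin.mk_one, Fin.isValue, hAN0, hAN1,
          hXA0, hXA1]
        simp [P, C, cc]
    · rw [fromBlocks_apply₁₂]
      fin_cases i
      all_goals
        simp only [Matrix.of_apply, Matrix.add_apply, Matrix.mul_apply,
          transpose_apply, Fin.zero_eta, Fin.mk_one, Fin.isValue, hAN0,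
          hAN1]
        simp [P, C, Q, cc]
    · rw [fromBlocks_apply₂₁]
      fin_cases j
      all_goals
        simp only [Matrix.of_apply, Matrix.add_apply, Matrix.mul_apply,
          Fin.zero_eta, Fin.mk_one, Fin.isValue, hNA0, hNA1]
        simp [P, C, Q, cc]
    · rw [fromBlocks_apply₂₂]
      simp only [Matrix.of_apply, Matrix.add_apply, Matrix.mul_apply]
      simp [C, Q, N, cc]
  rw [hM, h]
  have h5 : (Pᵀ - Qᵀ * A).det = - (2 * k ^ 2) := by
    have q00 : (Qᵀ * A) 0 0 = - (k - 1) := by
      simp only [Matrix.mul_apply, transpose_apply, Q, A, Matrix.of_apply, if_true, one_mul,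
        sum_neg_distrib, hse]
    have q01 : (Qᵀ * A) 0 1 = - (k - 1) := by
      simp only [Matrix.mul_apply, transpose_apply, Q, A, Matrix.of_apply, if_true, one_mul,
        sum_neg_distrib, one_ne_zero, if_false, hso]
    have q10 : (Qᵀ * A) 1 0 = - (k - 1) := by
      simp only [Matrix.mul_apply, transpose_apply, Q, A, Matrix.of_apply, if_true, one_ne_zero,
        if_false, mul_neg, sum_neg_distrib, hce, hse]
    have q11 : (Qᵀ * A) 1 1 = (k - 1) := by
      simp only [Matrix.mul_apply, transpose_apply, Q, A, Matrix.of_apply, one_ne_zero,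
        if_false, mul_neg, hco, neg_neg, hso]
    rw [det_fin_two]
    simp only [Matrix.sub_apply, q00, q01, q10, q11, transpose_apply]
    simp [P]
    ring
  have h6 : C.det = a * b := by
    rw [det_fin_two]
    simp [C]
  rw [h5, h6, neg_sq]

end Pool.Agent.R442.Two
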