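import Mathlib
import Pool.Agent.Helper848.SqDet
import Pool.Agent.R442.Circ2
import Pool.Agent.R442.Two

/-!
# The determinant of the symbols of `(j + k)(j + 2k)` modulo a prime `p ≡ 3 (mod 8)`
-/

set_option autoImplicit false

namespace Pool.Agent.R442.Jac

open Matrix Finset Pool.Agent.R343.SunDet Pool.Agent.R442.Border Pool.Agent.R442.Circ

variable {p : ℕ} [hp : Fact p.Prime] {s : ℕ}

section
variable (hps : p = 2 * s + 3)
include hps

theorem q_pow (a : ZMod p) :
    ((quadraticChar (ZMod p) a : ℤ) : ZMod p) = a ^ (s + 1) := by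
  have h := quadraticChar_eq_pow_of_char_ne_two' (F := ZMod p) (by
    rw [ZMod.ringChar_zmod_n]; omega) a
  rw [h, ZMod.card]
  congr 1
  omega

theorem two_ne : (2 : ZMod p) ≠ 0 := by
  intro h0
  have h4 : ((2 : ℕ) : ZMod p) = 0 := by exact_mod_cast h0
  rw [ZMod.natCast_eq_zero_iff] at h4
  have := Nat.le_of_dvd (by norm_num) h4
  omega

theorem q_inj (a : ZMod p) (e : ℤ) (he : e = 1 ∨ e = -1)
    (h : a ^ (s + 1) = (e : ZMod p)) : quadraticChar (ZMod p) a = e := by
  have h1 := q_pow hps a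
  rw [h] at h1
  have h2 := two_ne hps
  have h3 : a ≠ 0 := by
    intro h0
    rw [h0, zero_pow (by omega)] at h
    rcases he with he | he <;> rw [he] at h <;> simp at h
  rcases quadraticChar_dichotomy h3 with h4 | h4 <;> rcases he with he | he <;>
    rw [h4, he] at h1 ⊢
  · push_cast at h1
    exfalso
    apply h2
    linear_combination h1
  · push_cast at h1
    exfalso
    apply h2
    linear_combination -h1

end

variable (hps : p = 2 * s + 3) (h8 : p % 8 = 3) (g : ZMod p) (hg : orderOf g = 2 * s + 2)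

section
include hps hg

omit hps in
theorem g_ne : g ≠ 0 := by
  intro h
  rw [h, orderOf_zero] at hg
  omega

theorem g_half : g ^ (s + 1) = -1 := by
  have h1 : (g ^ (s + 1)) ^ 2 = 1 := by
    rw [← pow_mul, show (s + 1) * 2 = 2 * s + 2 by ring, ← hg]
    exact pow_orderOf_eq_one g
  rcases sq_eq_one_iff.1 h1 with h | h
  · exfalso
    have h2 := orderOf_dvd_of_pow_eq_one h
    rw [hg] at h2
    have := Nat.le_of_dvd (by omega) h2
    omega
  · exact h

theorem q_g : quadraticChar (ZMod p) g = -1 := by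
  apply q_inj hps g (-1) (Or.inr rfl)
  rw [g_half hps g hg]
  push_cast
  rfl

omit hps in
theorem g_pow : g ^ (2 * s + 1 + 1) = 1 := by
  rw [show 2 * s + 1 + 1 = 2 * s + 2 by ring, ← hg]
  exact pow_orderOf_eq_one g

/-- the powers of the generator -/
def y (g : ZMod p) (i : Fin (2 * s + 2)) : ZMod p := g ^ (i : ℕ)

omit hps in
theorem y_add (i j : Fin (2 * s + 2)) : y g (i + j) = y g i * y g j :=
  pow_fin_add (k := 2 * s + 1) (g_pow g hg) i j

omit hps in
theorem y_ne (i : Fin (2 * s + 2)) : y g i ≠ 0 := by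
  unfold y
  exact pow_ne_zero _ (g_ne g hg)

omit hps in
theorem y_sub (i j : Fin (2 * s + 2)) : y g (i - j) * y g j = y g i := by
  rw [← y_add g hg, sub_add_cancel]

theorem q_y (i : Fin (2 * s + 2)) : quadraticChar (ZMod p) (y g i) = c i := by
  unfold y c
  rw [map_pow, q_g hps g hg]

omit hps in
theorem q_y_sq (i : Fin (2 * s + 2)) : quadraticChar (ZMod p) (y g i ^ 2) = 1 :=
  quadraticChar_sq_one' (y_ne g hg i)

omit hps in
theorem y_inj {i j : Fin (2 * s + 2)} (h : y g i = y g j) : i = j := by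
  unfold y at h
  have h1 := pow_injOn_Iio_orderOf (x := g) (by
    rw [hg]
    have := i.2
    simp only [Set.mem_Iio]
    omega) (by
    rw [hg]
    have := j.2
    simp only [Set.mem_Iio]
    omega) h
  exact Fin.ext h1

theorem exists_sigma (i : Fin (2 * s + 2)) : ∃ j : Fin (2 * s + 2),
    (((j : ℕ) + 1 : ℕ) : ZMod p) = y g i := by
  have hy := y_ne g hg i
  have h1 : 0 < (y g i).val := Nat.pos_of_ne_zero (by rwa [Ne, ZMod.val_eq_zero])
  have h2 := ZMod.val_lt (y g i)
  refine ⟨⟨(y g i).val - 1, by omega⟩, ?_⟩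
  have : (y g i).val - 1 + 1 = (y g i).val := by omega
  simp only [this]
  exact ZMod.natCast_zmod_val _

/-- the power ordering -/
noncomputable def sg (i : Fin (2 * s + 2)) : Fin (2 * s + 2) :=
  Classical.choose (exists_sigma hps g hg i)

theorem sg_eq (i : Fin (2 * s + 2)) :
    ((((sg hps g hg i : Fin (2 * s + 2)) : ℕ) + 1 : ℕ) : ZMod p) = y g i :=
  Classical.choose_spec (exists_sigma hps g hg i)

theorem sg_inj : Function.Injective (sg hps g hg) := by
  intro i j h
  apply y_inj g hg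
  rw [← sg_eq hps g hg, ← sg_eq hps g hg, h]

/-- the power ordering as a permutation -/
noncomputable def sgE : Fin (2 * s + 2) ≃ Fin (2 * s + 2) :=
  Equiv.ofBijective _ (Finite.injective_iff_bijective.1 (sg_inj hps g hg))

theorem sgE_eq (i : Fin (2 * s + 2)) :
    ((((sgE hps g hg i : Fin (2 * s + 2)) : ℕ) + 1 : ℕ) : ZMod p) = y g i :=
  sg_eq hps g hg i

/-- the kernel -/
def F (g : ZMod p) (i : Fin (2 * s + 2)) : ℤ :=
  quadraticChar (ZMod p) ((y g i + 1) * (y g i + 2))

omit hps in
theorem F_sub (i j : Fin (2 * s + 2)) : F g (i - j) =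
    quadraticChar (ZMod p) ((y g i + y g j) * (y g i + 2 * y g j)) := by
  unfold F
  have h1 := q_y_sq g hg j
  have h2 : (y g i + y g j) * (y g i + 2 * y g j) =
      (y g (i - j) + 1) * (y g (i - j) + 2) * y g j ^ 2 := by
    rw [← y_sub g hg i j]
    ring
  rw [h2, map_mul _ _ (y g j ^ 2), h1, mul_one]

end

section
include hps h8

theorem q_neg_one : quadraticChar (ZMod p) (-1) = -1 := by
  apply q_inj hps (-1) (-1) (Or.inr rfl)
  have : Odd (s + 1) := Nat.odd_iff.2 (by omega)
  rw [this.neg_one_pow]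
  push_cast
  rfl

theorem q_two : quadraticChar (ZMod p) 2 = -1 := by
  have h := legendreSym.at_two (p := p) (by omega)
  unfold legendreSym at h
  push_cast at h
  rw [h, ZMod.χ₈_nat_eq_if_mod_eight, if_neg (by omega), if_neg (by omega)]

include hg

/-- the logarithm of `2` -/
theorem exists_log : ∃ l : Fin (2 * s + 2), y g l = 2 := by
  have hs1 : 1 < 2 * s + 2 := by omega
  by_contra hcon
  push_neg at hcon
  -- the map `y` is injective into the nonzero elements other than `2`
  have h1 : (Finset.univ.image (y g : Fin (2 * s + 2) → ZMod p)).card = 2 * s + 2 := by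
    rw [Finset.card_image_of_injective _ (fun i j h => y_inj g hg h), Finset.card_univ,
      Fintype.card_fin]
  have h2 : Finset.univ.image (y g : Fin (2 * s + 2) → ZMod p) ⊆
      (Finset.univ.erase 0).erase 2 := by
    intro z hz
    rw [mem_image] at hz
    obtain ⟨i, -, rfl⟩ := hz
    rw [mem_erase, mem_erase]
    exact ⟨hcon i, y_ne g hg i, mem_univ _⟩
  have h3 := Finset.card_le_card h2
  rw [h1, card_erase_of_mem, card_erase_of_mem (mem_univ _), Finset.card_univ, ZMod.card] at h3
  · omega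
  · rw [mem_erase]
    exact ⟨two_ne hps, mem_univ _⟩

/-- the logarithm of `2` -/
noncomputable def lg : Fin (2 * s + 2) := Classical.choose (exists_log hps h8 g hg)

theorem y_lg : y g (lg hps h8 g hg) = 2 := Classical.choose_spec (exists_log hps h8 g hg)

theorem c_lg : c (lg hps h8 g hg) = -1 := by
  rw [← q_y hps g hg, y_lg, q_two hps h8]

theorem F_anti (i : Fin (2 * s + 2)) : F g (lg hps h8 g hg - i) = - F g i := by
  unfold F
  have h1 := q_y_sq g hg i
  have h2 := y_sub g hg (lg hps h8 g hg) i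
  rw [y_lg] at h2
  have h3 : quadraticChar (ZMod p) ((y g (lg hps h8 g hg - i) + 1) *
      (y g (lg hps h8 g hg - i) + 2)) = quadraticChar (ZMod p)
      ((y g (lg hps h8 g hg - i) + 1) * (y g (lg hps h8 g hg - i) + 2) * y g i ^ 2) := by
    rw [map_mul _ _ (y g i ^ 2), h1, mul_one]
  have h4 : (y g (lg hps h8 g hg - i) + 1) * (y g (lg hps h8 g hg - i) + 2) * y g i ^ 2 =
      2 * ((y g i + 1) * (y g i + 2)) := by
    have : (y g (lg hps h8 g hg - i) + 1) * (y g (lg hps h8 g hg - i) + 2) * y g i ^ 2 =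
        (y g (lg hps h8 g hg - i) * y g i + y g i) *
          (y g (lg hps h8 g hg - i) * y g i + 2 * y g i) := by ring
    rw [this, h2]
    ring
  rw [h3, h4, map_mul, q_two hps h8]
  ring

theorem sum_F : ∑ i : Fin (2 * s + 2), F g i = 0 := by
  have h : ∑ i : Fin (2 * s + 2), F g (lg hps h8 g hg - i) = ∑ i, F g i :=
    Equiv.sum_comp (Equiv.subLeft (lg hps h8 g hg)) (F g)
  rw [sum_congr rfl (fun i _ => F_anti hps h8 g hg i), sum_neg_distrib] at h
  omega

omit hg in
theorem sum_cubic : ∑ t : ZMod p, quadraticChar (ZMod p) (t * ((t + 1) * (t + 2))) = 0 := by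
  have h := Equiv.sum_comp (Equiv.subLeft (-2 : ZMod p))
    (fun t : ZMod p => quadraticChar (ZMod p) (t * ((t + 1) * (t + 2))))
  have h2 : ∀ t : ZMod p, quadraticChar (ZMod p) ((Equiv.subLeft (-2 : ZMod p)) t *
      (((Equiv.subLeft (-2 : ZMod p)) t + 1) * ((Equiv.subLeft (-2 : ZMod p)) t + 2))) =
      - quadraticChar (ZMod p) (t * ((t + 1) * (t + 2))) := by
    intro t
    rw [Equiv.subLeft_apply]
    have : (-2 - t) * ((-2 - t + 1) * (-2 - t + 2)) = (-1) * (t * ((t + 1) * (t + 2))) := by ring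
    rw [this, map_mul, q_neg_one hps h8]
    ring
  rw [sum_congr rfl (fun t _ => h2 t), sum_neg_distrib] at h
  omega

theorem BB_F : BB (F g : Fin (2 * s + 2) → ℤ) = 0 := by
  have h := sum_cubic hps h8
  have hp0 : p = (2 * s + 2) + 1 := by omega
  rw [Pool.Agent.R343.SunDet.sum_zmod p] at h
  have h1 : ∑ i ∈ range p, quadraticChar (ZMod p) ((i : ZMod p) *
      (((i : ZMod p) + 1) * ((i : ZMod p) + 2))) = ∑ i ∈ range ((2 * s + 2) + 1),
      quadraticChar (ZMod p) ((i : ZMod p) * (((i : ZMod p) + 1) * ((i : ZMod p) + 2))) := by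
    rw [← hp0]
  rw [h1, sum_range_succ', Nat.cast_zero, zero_mul, MulChar.map_zero, add_zero] at h
  unfold BB
  rw [← h, ← Fin.sum_univ_eq_sum_range (fun i => quadraticChar (ZMod p)
    (((i + 1 : ℕ) : ZMod p) * ((((i + 1 : ℕ) : ZMod p) + 1) * (((i + 1 : ℕ) : ZMod p) + 2)))),
    ← Equiv.sum_comp (sgE hps g hg) (fun i : Fin (2 * s + 2) => quadraticChar (ZMod p)
    ((((i : ℕ) + 1 : ℕ) : ZMod p) * (((((i : ℕ) + 1 : ℕ) : ZMod p) + 1) *
      ((((i : ℕ) + 1 : ℕ) : ZMod p) + 2))))]
  refine sum_congr rfl fun i _ => ?_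
  rw [sgE_eq hps g hg, map_mul, q_y hps g hg]
  rfl

end

end Pool.Agent.R442.Jac
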