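import Mathlib
import Pool.Agent.R442.Jac

/-!
# The prime case of `{3,2}_p`
-/

set_option autoImplicit false

namespace Pool.Agent.R442.Jac

open Matrix Finset Pool.Agent.R343.SunDet Pool.Agent.R442.Border Pool.Agent.R442.Circ

variable {p : ℕ} [hp : Fact p.Prime] {s : ℕ}

/-- the matrix of all nonzero residues in their natural order -/
def X (p s : ℕ) [Fact p.Prime] (j k : Fin (2 * s + 2)) : ℤ :=
  quadraticChar (ZMod p) (((((j : ℕ) + 1 : ℕ) : ZMod p) + (((k : ℕ) + 1 : ℕ) : ZMod p)) *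
    ((((j : ℕ) + 1 : ℕ) : ZMod p) + 2 * (((k : ℕ) + 1 : ℕ) : ZMod p)))

/-- the character in the natural order -/
def cN (p s : ℕ) [Fact p.Prime] (j : Fin (2 * s + 2)) : ℤ :=
  quadraticChar (ZMod p) (((j : ℕ) + 1 : ℕ) : ZMod p)

/-- the splitting of the index set into the ends and the middle -/
def emb (s : ℕ) : Fin 2 ⊕ Fin (2 * s) → Fin (2 * s + 2) :=
  Sum.elim ![0, Fin.last (2 * s + 1)] (fun i => i.succ.castSucc)

theorem emb_inj (s : ℕ) : Function.Injective (emb s) := by
  intro a b h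
  unfold emb at h
  rcases a with a | a <;> rcases b with b | b
  · fin_cases a <;> fin_cases b
    · rfl
    · have h' := congrArg Fin.val h
      simp at h'
    · have h' := congrArg Fin.val h
      simp at h'
    · rfl
  · have h' := congrArg Fin.val h
    have hb := b.2
    fin_cases a
    · simp at h'
    · simp at h'
      omega
  · have h' := congrArg Fin.val h
    have hb := a.2
    fin_cases b
    · simp at h'
    · simp at h'
      omega
  · have h' := congrArg Fin.val h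
    simp only [Sum.elim_inr, Fin.val_castSucc, Fin.val_succ] at h'
    congr 1
    apply Fin.ext
    omega

/-- the splitting as an equivalence -/
noncomputable def embE (s : ℕ) : Fin 2 ⊕ Fin (2 * s) ≃ Fin (2 * s + 2) :=
  Equiv.ofBijective _ ((Fintype.bijective_iff_injective_and_card _).2 ⟨emb_inj s, by
    rw [Fintype.card_sum, Fintype.card_fin, Fintype.card_fin, Fintype.card_fin]; omega⟩)

theorem embE_inr (i : Fin (2 * s)) : ((embE s (Sum.inr i) : Fin (2 * s + 2)) : ℕ) = i + 1 := rfl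

theorem embE_zero : ((embE s (Sum.inl 0) : Fin (2 * s + 2)) : ℕ) = 0 := rfl

theorem embE_one : ((embE s (Sum.inl 1) : Fin (2 * s + 2)) : ℕ) = 2 * s + 1 := rfl

/-- the index of `-1` -/
def mid (s : ℕ) : Fin (2 * s + 2) := ⟨s + 1, by omega⟩

variable (hps : p = 2 * s + 3) (h8 : p % 8 = 3) (g : ZMod p) (hg : orderOf g = 2 * s + 2)

section
include hps hg

theorem X_sg (i j : Fin (2 * s + 2)) :
    X p s (sgE hps g hg i) (sgE hps g hg j) = F g (i - j) := by
  rw [F_sub g hg]
  unfold X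
  rw [sgE_eq hps g hg, sgE_eq hps g hg]

theorem cN_sg (i : Fin (2 * s + 2)) : cN p s (sgE hps g hg i) = c i := by
  unfold cN
  rw [sgE_eq hps g hg, q_y hps g hg]

include h8

theorem row_sum (i : Fin (2 * s + 2)) : ∑ j, X p s i j = 0 := by
  rw [← Equiv.sum_comp (sgE hps g hg)]
  obtain ⟨i', rfl⟩ := (sgE hps g hg).surjective i
  rw [sum_congr rfl (fun j _ => X_sg hps g hg i' j)]
  have h := Equiv.sum_comp (Equiv.subLeft i') (F g)
  simp only [Equiv.subLeft_apply] at h
  rw [h]
  exact sum_F hps h8 g hg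

theorem col_sum (j : Fin (2 * s + 2)) : ∑ i, X p s i j = 0 := by
  rw [← Equiv.sum_comp (sgE hps g hg)]
  obtain ⟨j', rfl⟩ := (sgE hps g hg).surjective j
  rw [sum_congr rfl (fun i _ => X_sg hps g hg i j')]
  have h := Equiv.sum_comp (Equiv.subRight j') (F g)
  simp only [Equiv.subRight_apply] at h
  rw [h]
  exact sum_F hps h8 g hg

theorem row_csum (i : Fin (2 * s + 2)) : ∑ j, X p s i j * cN p s j = 0 := by
  rw [← Equiv.sum_comp (sgE hps g hg)]
  obtain ⟨i', rfl⟩ := (sgE hps g hg).surjective i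
  rw [sum_congr rfl (fun j _ => by rw [X_sg hps g hg i' j, cN_sg hps g hg]), sum_right,
    BB_F hps h8 g hg, mul_zero]

theorem col_csum (j : Fin (2 * s + 2)) : ∑ i, cN p s i * X p s i j = 0 := by
  rw [← Equiv.sum_comp (sgE hps g hg)]
  obtain ⟨j', rfl⟩ := (sgE hps g hg).surjective j
  rw [sum_congr rfl (fun i _ => by rw [X_sg hps g hg i j', cN_sg hps g hg]), sum_left,
    BB_F hps h8 g hg, mul_zero]

omit hg in
theorem cN_zero : cN p s (embE s (Sum.inl 0)) = 1 := by
  unfold cN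
  rw [embE_zero, zero_add, Nat.cast_one, map_one]

omit hg in
theorem cN_last : cN p s (embE s (Sum.inl 1)) = -1 := by
  unfold cN
  rw [embE_one, ← q_neg_one hps h8]
  congr 1
  have : ((p : ℕ) : ZMod p) = 0 := ZMod.natCast_self p
  have h2 : p = (2 * s + 1 + 1) + 1 := by omega
  have h3 : (((2 * s + 1 + 1) + 1 : ℕ) : ZMod p) = 0 := by rw [← h2]; exact this
  rw [Nat.cast_add, Nat.cast_one] at h3
  exact eq_neg_of_add_eq_zero_left h3

/-- the matrix over the middle -/
noncomputable def M2 (p s : ℕ) [Fact p.Prime] : Matrix (Fin (2 * s)) (Fin (2 * s)) ℤ :=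
  Matrix.of fun i j => X p s (embE s (Sum.inr i)) (embE s (Sum.inr j))

theorem det_pow (b : ℤ) :
    (Matrix.of fun i j : Fin (2 * s + 2) => F g (i - j) + (1 + c i * b * c j)).det =
      (2 * ((s + 1 : ℕ) : ℤ) ^ 2) ^ 2 * (1 * b) * (M2 p s).det := by
  have e1 : (Matrix.of fun i j : Fin (2 * s + 2) => F g (i - j) + (1 + c i * b * c j)) =
      (Matrix.of fun j k : Fin (2 * s + 2) => X p s j k + (1 + cN p s j * b * cN p s k)).submatrix
        (sgE hps g hg) (sgE hps g hg) := by
    ext i j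
    rw [submatrix_apply, of_apply, of_apply, X_sg hps g hg, cN_sg hps g hg, cN_sg hps g hg]
  rw [e1, det_submatrix_equiv_self, ← det_submatrix_equiv_self (embE s)]
  have hcc : ∀ i : Fin 2 ⊕ Fin (2 * s), cN p s (embE s i) =
      Two.cc (fun i => cN p s (embE s (Sum.inr i))) i := by
    intro i
    rcases i with i | i
    · fin_cases i
      · exact cN_zero hps h8
      · exact cN_last hps h8
    · rfl
  have e2 : (Matrix.of fun j k : Fin (2 * s + 2) =>
      X p s j k + (1 + cN p s j * b * cN p s k)).submatrix (embE s) (embE s) =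
      (Matrix.of fun i j : Fin 2 ⊕ Fin (2 * s) => (Matrix.of fun i j => X p s (embE s i)
        (embE s j)) i j + (1 + Two.cc (fun i => cN p s (embE s (Sum.inr i))) i * b *
          Two.cc (fun i => cN p s (embE s (Sum.inr i))) j)) := by
    ext i j
    rw [submatrix_apply, of_apply, of_apply, of_apply, hcc, hcc]
  rw [e2, Two.det_two ((s + 1 : ℕ) : ℤ)]
  · rfl
  · intro i
    obtain ⟨k, hk⟩ := (sgE hps g hg).surjective (embE s (Sum.inr i))
    rw [← hk, cN_sg hps g hg]
    unfold c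
    exact neg_one_pow_eq_or ℤ _
  · have h := sum_c (s := s)
    rw [← sum_congr rfl (fun i _ => cN_sg hps g hg i), Equiv.sum_comp (sgE hps g hg),
      ← Equiv.sum_comp (embE s), Fintype.sum_sum_type, Fin.sum_univ_two, cN_zero hps h8,
      cN_last hps h8] at h
    simpa using h
  · rw [Fintype.card_fin]
    push_cast
    ring
  · intro i
    simp only [of_apply]
    have := Equiv.sum_comp (embE s) (fun j => X p s (embE s i) j)
    rw [this]
    exact row_sum hps h8 g hg _
  · intro i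
    simp only [of_apply, ← hcc]
    have := Equiv.sum_comp (embE s) (fun j => X p s (embE s i) j * cN p s j)
    rw [this]
    exact row_csum hps h8 g hg _
  · intro j
    simp only [of_apply]
    have := Equiv.sum_comp (embE s) (fun i => X p s i (embE s j))
    rw [this]
    exact col_sum hps h8 g hg _
  · intro j
    simp only [of_apply, ← hcc]
    have := Equiv.sum_comp (embE s) (fun i => cN p s i * X p s i (embE s j))
    rw [this]
    exact col_csum hps h8 g hg _

/-- half of the logarithm of `2` -/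
theorem exists_half : ∃ a : Fin (2 * s + 2), 1 + a + a = lg hps h8 g hg := by
  set l := lg hps h8 g hg with hl
  have hc : c l = -1 := c_lg hps h8 g hg
  have hodd : (l : ℕ) % 2 = 1 := by
    by_contra hcon
    have h0 : Even (l : ℕ) := Nat.even_iff.2 (by omega)
    unfold c at hc
    rw [h0.neg_one_pow] at hc
    omega
  have hl2 := l.2
  refine ⟨⟨((l : ℕ) - 1) / 2, by omega⟩, ?_⟩
  apply Fin.ext
  rw [Fin.val_add, Fin.val_add, Fin.val_one]
  simp only
  have h1 : 1 + ((l : ℕ) - 1) / 2 < 2 * s + 2 := by omega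
  rw [Nat.mod_eq_of_lt h1]
  have h2 : 1 + ((l : ℕ) - 1) / 2 + ((l : ℕ) - 1) / 2 = l := by omega
  rw [h2, Nat.mod_eq_of_lt hl2]

/-- the square -/
theorem mul_det : ∃ u : ℤ, ((s + 1 : ℕ) : ℤ) * (M2 p s).det = u ^ 2 := by
  obtain ⟨a, ha⟩ := exists_half hps h8 g hg
  have hf : ∀ i, (fun i => F g (i + a)) (1 - i) = - (fun i => F g (i + a)) i := by
    intro i
    have h := F_anti hps h8 g hg (i + a)
    have h2 : lg hps h8 g hg - (i + a) = 1 - i + a := by
      rw [← ha]
      abel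
    rw [h2] at h
    exact h
  have hB : BB (fun i => F g (i + a)) = 0 := by
    have h := Equiv.sum_comp (Equiv.addRight a) (fun i => c i * F g i)
    have h2 := BB_F hps h8 g hg
    unfold BB at h2 ⊢
    rw [← h] at h2
    have h3 : ∀ i : Fin (2 * s + 2), c ((Equiv.addRight a) i) * F g ((Equiv.addRight a) i) =
        c a * (c i * F g (i + a)) := by
      intro i
      rw [Equiv.coe_addRight, c_add]
      ring
    rw [sum_congr rfl (fun i _ => h3 i), ← mul_sum] at h2
    have h4 := c_sq a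
    calc ∑ i, c i * F g (i + a) = c a * c a * ∑ i, c i * F g (i + a) := by rw [h4, one_mul]
      _ = c a * (c a * ∑ i, c i * F g (i + a)) := by ring
      _ = 0 := by rw [h2, mul_zero]
  have h := main2 (fun i => F g (i + a)) hf hB
  have e1 : (Matrix.of fun i j : Fin (2 * s + 2) =>
      (fun i => F g (i + a)) (i - j) + (1 + c i * c j)) =
      (Matrix.of fun i j : Fin (2 * s + 2) => F g (i - j) + (1 + c i * c a * c j)).submatrix
        (Equiv.addRight a) id := by
    ext i j
    rw [submatrix_apply, of_apply, of_apply, Equiv.coe_addRight, id, c_add]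
    have h1 : i - j + a = i + a - j := by abel
    have h2 : c i * c a * c a * c j = c i * c j := by
      rw [mul_assoc (c i), c_sq, mul_one]
    simp only [h1, h2]
  have hsign : ((Equiv.Perm.sign (Equiv.addRight a) : ℤˣ) : ℤ) = c a := by
    have h1 : a = res (2 * s + 1) (a : ℕ) := by
      apply Fin.ext
      exact (Nat.mod_eq_of_lt a.2).symm
    have h2 := sign_addRight (2 * s + 1) (a : ℕ)
    rw [← h1] at h2
    rw [h2]
    unfold c
    push_cast
    rw [pow_mul]
    congr 1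
    exact Odd.neg_one_pow ⟨s, rfl⟩
  rw [e1, det_permute, det_pow hps h8 g hg, hsign] at h
  obtain ⟨u, hu⟩ := Pool.Agent.Helper848.SqDet.isSquare_int (Matrix.of fun i j : Fin (2 * s) =>
        (fun i => F g (i + a)) (i.succ.succ - j.succ.succ) -
          (fun i => F g (i + a)) (j.succ.succ - i.succ.succ)) (fun _ => 0) (by
    intro i j
    simp only [of_apply]
    ring)
  refine ⟨u, ?_⟩
  rw [pow_two, ← hu]
  have h4 := c_sq a
  have hpos : (0 : ℤ) < ((s + 1 : ℕ) : ℤ) := by positivity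
  have h5 : ((s + 1 : ℕ) : ℤ) ≠ 0 := hpos.ne'
  have h6 : (16 * ((s + 1 : ℕ) : ℤ) ^ 5) ≠ 0 := by positivity
  apply mul_left_cancel₀ h6
  push_cast at h ⊢
  linear_combination h - (2 * (s + 1)) ^ 2 * (2 * (s + 1) ^ 2) ^ 2 * (M2 p s).det * h4

end

section
include hps hg

omit hg in
theorem idx_inj {j k : Fin (2 * s + 2)}
    (h : (((j : ℕ) + 1 : ℕ) : ZMod p) = (((k : ℕ) + 1 : ℕ) : ZMod p)) : j = k := by
  rw [ZMod.natCast_eq_natCast_iff', Nat.mod_eq_of_lt (by have := j.2; omega),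
    Nat.mod_eq_of_lt (by have := k.2; omega)] at h
  apply Fin.ext
  omega

theorem sgE_zero : sgE hps g hg 0 = embE s (Sum.inl 0) := by
  apply idx_inj hps
  rw [sgE_eq, embE_zero]
  unfold y
  simp

theorem sgE_mid : sgE hps g hg (mid s) = embE s (Sum.inl 1) := by
  apply idx_inj hps
  rw [sgE_eq, embE_one]
  unfold y mid
  simp only
  rw [g_half hps g hg]
  have : ((p : ℕ) : ZMod p) = 0 := ZMod.natCast_self p
  have h2 : p = (2 * s + 1 + 1) + 1 := by omega
  have h3 : (((2 * s + 1 + 1) + 1 : ℕ) : ZMod p) = 0 := by rw [← h2]; exact this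
  rw [Nat.cast_add, Nat.cast_one] at h3
  exact (eq_neg_of_add_eq_zero_left h3).symm

omit hps hg in
theorem r_add (i j : Fin (2 * s + 2)) :
    (((i + j : Fin (2 * s + 2)) : ℕ) : ZMod (s + 1)) = ((i : ℕ) : ZMod (s + 1)) + (j : ℕ) := by
  rw [Fin.val_add, ← Nat.cast_add, ZMod.natCast_eq_natCast_iff', Nat.mod_mod_of_dvd]
  exact ⟨2, by ring⟩

omit hps hg in
theorem r_sub (i j : Fin (2 * s + 2)) :
    (((i - j : Fin (2 * s + 2)) : ℕ) : ZMod (s + 1)) = ((i : ℕ) : ZMod (s + 1)) - (j : ℕ) := by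
  have h := r_add (i - j) j
  rw [sub_add_cancel] at h
  rw [h]
  ring

include h8

theorem sum_r : ∑ l : Fin (2 * s + 2), ((F g l : ℤ) : ZMod (s + 1)) * ((c l : ℤ) : ZMod (s + 1)) *
    ((l : ℕ) : ZMod (s + 1)) = 0 := by
  set S := ∑ l : Fin (2 * s + 2), ((F g l : ℤ) : ZMod (s + 1)) * ((c l : ℤ) : ZMod (s + 1)) *
    ((l : ℕ) : ZMod (s + 1)) with hS
  have hB : ∑ l : Fin (2 * s + 2), ((F g l : ℤ) : ZMod (s + 1)) *
      ((c l : ℤ) : ZMod (s + 1)) = 0 := by
    have h := BB_F hps h8 g hg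
    unfold BB at h
    have h2 := congrArg (fun z : ℤ => (z : ZMod (s + 1))) h
    simp only [Int.cast_sum, Int.cast_mul, Int.cast_zero] at h2
    rw [← h2]
    exact sum_congr rfl fun l _ => mul_comm _ _
  have h := Equiv.sum_comp (Equiv.subLeft (lg hps h8 g hg)) (fun l : Fin (2 * s + 2) =>
    ((F g l : ℤ) : ZMod (s + 1)) * ((c l : ℤ) : ZMod (s + 1)) * ((l : ℕ) : ZMod (s + 1)))
  rw [← hS] at h
  have h2 : ∀ l : Fin (2 * s + 2), ((F g ((Equiv.subLeft (lg hps h8 g hg)) l) : ℤ) : ZMod (s + 1)) *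
      ((c ((Equiv.subLeft (lg hps h8 g hg)) l) : ℤ) : ZMod (s + 1)) *
      ((((Equiv.subLeft (lg hps h8 g hg)) l : Fin (2 * s + 2)) : ℕ) : ZMod (s + 1)) =
      (((lg hps h8 g hg : Fin (2 * s + 2)) : ℕ) : ZMod (s + 1)) * (((F g l : ℤ) : ZMod (s + 1)) *
        ((c l : ℤ) : ZMod (s + 1))) - ((F g l : ℤ) : ZMod (s + 1)) *
        ((c l : ℤ) : ZMod (s + 1)) * ((l : ℕ) : ZMod (s + 1)) := by
    intro l
    rw [Equiv.subLeft_apply, F_anti hps h8 g hg, c_sub, c_lg hps h8 g hg, r_sub]
    push_cast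
    ring
  rw [sum_congr rfl (fun l _ => h2 l), sum_sub_distrib, ← mul_sum, hB, mul_zero, zero_sub,
    ← hS] at h
  have h3 : (2 : ZMod (s + 1)) * S = 0 := by
    linear_combination -h
  have h4 : s % 2 = 0 := by omega
  have h5 : (((s / 2 + 1) * 2 : ℕ) : ZMod (s + 1)) = 1 := by
    have : (s / 2 + 1) * 2 = (s + 1) + 1 := by omega
    rw [this, Nat.cast_add, ZMod.natCast_self, zero_add, Nat.cast_one]
  calc S = 1 * S := (one_mul S).symm
    _ = (((s / 2 + 1) * 2 : ℕ) : ZMod (s + 1)) * S := by rw [h5]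
    _ = ((s / 2 + 1 : ℕ) : ZMod (s + 1)) * (2 * S) := by push_cast; ring
    _ = 0 := by rw [h3, mul_zero]

theorem ker_sum (i : Fin (2 * s + 2)) : ∑ j : Fin (2 * s + 2), ((F g (i - j) : ℤ) : ZMod (s + 1)) *
    (((c j : ℤ) : ZMod (s + 1)) * ((j : ℕ) : ZMod (s + 1))) = 0 := by
  have hB : ∑ l : Fin (2 * s + 2), ((F g l : ℤ) : ZMod (s + 1)) *
      ((c l : ℤ) : ZMod (s + 1)) = 0 := by
    have h := BB_F hps h8 g hg
    unfold BB at h
    have h2 := congrArg (fun z : ℤ => (z : ZMod (s + 1))) h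
    simp only [Int.cast_sum, Int.cast_mul, Int.cast_zero] at h2
    rw [← h2]
    exact sum_congr rfl fun l _ => mul_comm _ _
  have h := Equiv.sum_comp (Equiv.subLeft i) (fun j : Fin (2 * s + 2) =>
    ((F g (i - j) : ℤ) : ZMod (s + 1)) *
    (((c j : ℤ) : ZMod (s + 1)) * ((j : ℕ) : ZMod (s + 1))))
  rw [← h]
  have h2 : ∀ l : Fin (2 * s + 2), ((F g (i - (Equiv.subLeft i) l) : ℤ) : ZMod (s + 1)) *
      (((c ((Equiv.subLeft i) l) : ℤ) : ZMod (s + 1)) *
      ((((Equiv.subLeft i) l : Fin (2 * s + 2)) : ℕ) : ZMod (s + 1))) =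
      (((c i : ℤ) : ZMod (s + 1)) * ((i : ℕ) : ZMod (s + 1))) * (((F g l : ℤ) : ZMod (s + 1)) *
        ((c l : ℤ) : ZMod (s + 1))) - ((c i : ℤ) : ZMod (s + 1)) * (((F g l : ℤ) : ZMod (s + 1)) *
        ((c l : ℤ) : ZMod (s + 1)) * ((l : ℕ) : ZMod (s + 1))) := by
    intro l
    rw [Equiv.subLeft_apply, sub_sub_cancel, c_sub, r_sub]
    push_cast
    ring
  rw [sum_congr rfl (fun l _ => h2 l), sum_sub_distrib, ← mul_sum, ← mul_sum, hB,
    sum_r hps h8 g hg, mul_zero, mul_zero, sub_zero]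

/-- divisibility of the determinant -/
theorem dvd_det (hs : 1 ≤ s) : ((s + 1 : ℕ) : ℤ) ∣ (M2 p s).det := by
  rw [← ZMod.intCast_zmod_eq_zero_iff_dvd]
  let w' : Fin (2 * s + 2) → ZMod (s + 1) := fun j =>
    ((c ((sgE hps g hg).symm j) : ℤ) : ZMod (s + 1)) *
      ((((sgE hps g hg).symm j : Fin (2 * s + 2)) : ℕ) : ZMod (s + 1))
  have hw0 : w' (embE s (Sum.inl 0)) = 0 := by
    simp only [w']
    rw [← sgE_zero hps g hg, Equiv.symm_apply_apply]
    simp
  have hw1 : w' (embE s (Sum.inl 1)) = 0 := by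
    simp only [w']
    rw [← sgE_mid hps g hg, Equiv.symm_apply_apply]
    simp only [mid]
    rw [ZMod.natCast_self, mul_zero]
  let A := (M2 p s).map (Int.castRingHom (ZMod (s + 1)))
  let w : Fin (2 * s) → ZMod (s + 1) := fun j => w' (embE s (Sum.inr j))
  have hA : A *ᵥ w = 0 := by
    ext i
    simp only [mulVec, dotProduct, Pi.zero_apply]
    have h1 : ∑ j, A i j * w j = ∑ j : Fin (2 * s + 2),
        ((X p s (embE s (Sum.inr i)) j : ℤ) : ZMod (s + 1)) * w' j := by
      rw [← Equiv.sum_comp (embE s), Fintype.sum_sum_type, Fin.sum_univ_two, hw0, hw1, mul_zero,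
        mul_zero, add_zero, zero_add]
      rfl
    rw [h1, ← Equiv.sum_comp (sgE hps g hg)]
    obtain ⟨i', hi'⟩ := (sgE hps g hg).surjective (embE s (Sum.inr i))
    rw [← hi', ← ker_sum hps h8 g hg i']
    refine sum_congr rfl fun j _ => ?_
    rw [X_sg hps g hg]
    simp only [w']
    rw [Equiv.symm_apply_apply]
  have hex : ∃ i0 : Fin (2 * s), embE s (Sum.inr i0) = sgE hps g hg 1 := by
    obtain ⟨x, hx⟩ := (embE s).surjective (sgE hps g hg 1)
    rcases x with x | x
    · exfalso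
      have hx' : x = 0 ∨ x = 1 := by
        fin_cases x
        · left; rfl
        · right; rfl
      rcases hx' with hx' | hx'
      · rw [hx', ← sgE_zero hps g hg] at hx
        have h3 := congrArg Fin.val ((sgE hps g hg).injective hx)
        rw [Fin.val_one] at h3
        simp at h3
      · rw [hx', ← sgE_mid hps g hg] at hx
        have h3 := congrArg Fin.val ((sgE hps g hg).injective hx)
        rw [Fin.val_one] at h3
        simp only [mid] at h3
        omega
    · exact ⟨x, hx⟩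
  obtain ⟨i0, hi0⟩ := hex
  have hwi : w i0 = -1 := by
    simp only [w, w']
    rw [hi0, Equiv.symm_apply_apply, c_one, Fin.val_one]
    simp
  have h5 : A.adjugate *ᵥ (A *ᵥ w) = A.det • w := by
    rw [mulVec_mulVec, adjugate_mul, smul_mulVec, one_mulVec]
  rw [hA, mulVec_zero] at h5
  have h6 := congrFun h5 i0
  rw [Pi.zero_apply, Pi.smul_apply, hwi, smul_eq_mul] at h6
  have h7 : A.det = (((M2 p s).det : ℤ) : ZMod (s + 1)) := by
    have := RingHom.map_det (Int.castRingHom (ZMod (s + 1))) (M2 p s)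
    exact this.symm
  rw [← h7]
  linear_combination h6

end

/-- the prime case -/
theorem prime_case (hps : p = 2 * s + 3) (h8 : p % 8 = 3) :
    ∃ x : ℤ, (M2 p s).det = ((s + 1 : ℕ) : ℤ) * x ^ 2 := by
  rcases Nat.eq_zero_or_pos s with h0 | hs
  · subst h0
    haveI : IsEmpty (Fin (2 * 0)) := inferInstanceAs (IsEmpty (Fin 0))
    exact ⟨1, by
      have : (M2 p 0).det = 1 := det_isEmpty
      rw [this]
      norm_num⟩
  obtain ⟨g', hg'⟩ := IsCyclic.exists_generator (α := (ZMod p)ˣ)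
  have hg : orderOf (g' : ZMod p) = 2 * s + 2 := by
    rw [orderOf_units, orderOf_eq_card_of_forall_mem_zpowers hg', Nat.card_eq_fintype_card,
      ZMod.card_units]
    omega
  obtain ⟨u, hu⟩ := mul_det hps h8 (g' : ZMod p) hg
  obtain ⟨d, hd⟩ := dvd_det hps h8 (g' : ZMod p) hg hs
  have hpos : (0 : ℤ) < ((s + 1 : ℕ) : ℤ) := by positivity
  have h1 : ((s + 1 : ℕ) : ℤ) ^ 2 ∣ u ^ 2 := by
    rw [← hu, hd]
    exact ⟨d, by ring⟩
  rw [Int.pow_dvd_pow_iff (by norm_num)] at h1
  obtain ⟨x, hx⟩ := h1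
  refine ⟨x, ?_⟩
  apply mul_left_cancel₀ hpos.ne'
  rw [hu, hx]
  ring

end Pool.Agent.R442.Jac
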