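import Mathlib
import Pool.Agent.R442.JacP

/-!
# The composite case of `{3,2}_n`
-/

set_option autoImplicit false

namespace Pool.Agent.R442.Jac

open Matrix Finset

/-- the form `j^2 + 3jk + 2k^2` -/
def Q (j k : ℤ) : ℤ := j ^ 2 + 3 * j * k + 2 * k ^ 2

/-- the matrix in question, with indices shifted -/
def N (n : ℕ) : Matrix (Fin (n - 3)) (Fin (n - 3)) ℤ :=
  Matrix.of fun j k => jacobiSym (Q (((j : ℕ) : ℤ) + 2) (((k : ℕ) : ℤ) + 2)) n

theorem Q_congr (j : ℤ) (a b : ℤ) (m : ℤ) (h : a ≡ b [ZMOD m]) : Q j a ≡ Q j b [ZMOD m] := by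
  unfold Q
  gcongr

theorem jac_congr (a b : ℤ) (m : ℕ) (h : a ≡ b [ZMOD m]) : jacobiSym a m = jacobiSym b m :=
  jacobiSym.mod_left' h

theorem exists_prime (n : ℕ) (hn : n % 4 = 3) : ∃ p : ℕ, p.Prime ∧ p ∣ n ∧ p % 4 = 3 := by
  induction n using Nat.strong_induction_on with
  | _ n ih =>
    have hn1 : n ≠ 1 := by omega
    have hp := Nat.minFac_prime hn1
    obtain ⟨m, hm⟩ := Nat.minFac_dvd n
    have h0 : n.minFac * m % 4 = 3 := by rw [← hm]; exact hn
    rw [Nat.mul_mod] at h0
    have h1 : n.minFac % 4 < 4 := Nat.mod_lt _ (by norm_num)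
    have h2 : m % 4 < 4 := Nat.mod_lt _ (by norm_num)
    by_cases h3 : n.minFac % 4 = 3
    · exact ⟨_, hp, Nat.minFac_dvd n, h3⟩
    have h4 : m % 4 = 3 := by
      interval_cases (n.minFac % 4) <;> interval_cases (m % 4) <;> omega
    have h5 : m < n := by
      have h6 : 2 ≤ n.minFac := hp.two_le
      have h7 : 0 < m := by omega
      calc m < 2 * m := by omega
        _ ≤ n.minFac * m := Nat.mul_le_mul_right _ h6
        _ = n := hm.symm
    obtain ⟨p, hp1, hp2, hp3⟩ := ih m h5 h4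
    exact ⟨p, hp1, hp2.trans ⟨n.minFac, by rw [mul_comm]; exact hm⟩, hp3⟩

/-- the repeated prime case -/
theorem det_sq (n p m : ℕ) (hp : p.Prime) (hn : n = p * m) (hpm : p ∣ m) (hp3 : 3 ≤ p)
    (hm0 : 0 < m) : (N n).det = 0 := by
  have hmp : p ≤ m := Nat.le_of_dvd hm0 hpm
  have hlt : m < n - 3 := by
    have : 3 * m ≤ p * m := Nat.mul_le_mul_right _ hp3
    omega
  have : NeZero p := ⟨hp.ne_zero⟩
  have : NeZero m := ⟨hm0.ne'⟩
  apply det_zero_of_column_eq (i := ⟨0, by omega⟩) (j := ⟨m, hlt⟩)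
  · intro h
    have := congrArg Fin.val h
    simp only at this
    omega
  intro k
  unfold N
  simp only [of_apply]
  generalize (((k : ℕ) : ℤ) + 2) = J
  rw [hn, jacobiSym.mul_right, jacobiSym.mul_right]
  have h1 : ((0 : ℕ) : ℤ) + 2 ≡ (m : ℤ) + 2 [ZMOD m] := by
    rw [Int.modEq_iff_dvd]
    exact ⟨1, by push_cast; ring⟩
  have h2 := Q_congr J _ _ _ h1
  have h3 : Q J (((0 : ℕ) : ℤ) + 2) ≡ Q J ((m : ℤ) + 2)
      [ZMOD p] := h2.of_dvd (Int.natCast_dvd_natCast.2 hpm)
  rw [jac_congr _ _ _ h2, jac_congr _ _ _ h3]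

theorem sum_three (p : ℕ) [hp : Fact p.Prime] (hp4 : p % 4 = 3) (j : ZMod p) :
    ∑ z : ZMod p, quadraticChar (ZMod p) (z * ((j + z) * (j + 2 * z))) = 0 := by
  have hneg : quadraticChar (ZMod p) (-1) = -1 := by
    have h := legendreSym.at_neg_one (p := p) (by omega)
    unfold legendreSym at h
    push_cast at h
    rw [h, ZMod.χ₄_nat_three_mod_four hp4]
  have h := Equiv.sum_comp (Equiv.subLeft (-j))
    (fun z : ZMod p => quadraticChar (ZMod p) (z * ((j + z) * (j + 2 * z))))
  have h2 : ∀ z : ZMod p, quadraticChar (ZMod p) ((Equiv.subLeft (-j)) z *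
      ((j + (Equiv.subLeft (-j)) z) * (j + 2 * (Equiv.subLeft (-j)) z))) =
      - quadraticChar (ZMod p) (z * ((j + z) * (j + 2 * z))) := by
    intro z
    rw [Equiv.subLeft_apply]
    have : (-j - z) * ((j + (-j - z)) * (j + 2 * (-j - z))) =
        (-1) * (z * ((j + z) * (j + 2 * z))) := by ring
    rw [this, map_mul, hneg]
    ring
  rw [sum_congr rfl (fun z _ => h2 z), sum_neg_distrib] at h
  omega

/-- the coprime case -/
theorem det_cop (n p m : ℕ) [hp : Fact p.Prime] (hn : n = p * m) (hpm : ¬ p ∣ m)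
    (hp4 : p % 4 = 3) (hm : 5 ≤ m) : (N n).det = 0 := by
  have hp0 := hp.out.pos
  have : NeZero m := ⟨by omega⟩
  have : NeZero p := ⟨by omega⟩
  rw [← exists_mulVec_eq_zero_iff]
  have hn3 : 0 < n - 3 := by
    have : 5 * 1 ≤ m * p := Nat.mul_le_mul hm hp0
    rw [mul_comm m p, ← hn] at this
    omega
  refine ⟨fun k => if m ∣ (k : ℕ) then quadraticChar (ZMod p) (((k : ℕ) : ZMod p) + 2) else 0,
    ?_, ?_⟩
  · intro h
    have h1 := congrFun h ⟨0, hn3⟩
    simp only [Pi.zero_apply, dvd_zero, if_true, Nat.cast_zero, zero_add] at h1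
    rw [quadraticChar_eq_zero_iff] at h1
    have h4 : ((2 : ℕ) : ZMod p) = 0 := by exact_mod_cast h1
    rw [ZMod.natCast_eq_zero_iff] at h4
    have := Nat.le_of_dvd (by norm_num) h4
    omega
  · ext j
    simp only [mulVec, dotProduct, Pi.zero_apply]
    set J : ℤ := ((j : ℕ) : ℤ) + 2 with hJ
    let G : ℕ → ℤ := fun k => jacobiSym (Q J ((k : ℤ) + 2)) n *
      (if m ∣ k then quadraticChar (ZMod p) ((k : ZMod p) + 2) else 0)
    have h1 : ∑ k : Fin (n - 3), N n j k *
        (if m ∣ (k : ℕ) then quadraticChar (ZMod p) (((k : ℕ) : ZMod p) + 2) else 0) =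
        ∑ k ∈ range (n - 3), G k := by
      rw [← Fin.sum_univ_eq_sum_range]
      rfl
    rw [h1]
    have h2 : ∑ k ∈ range (n - 3), G k = ∑ t ∈ range p, G (m * t) := by
      symm
      rw [← sum_image (f := G) (s := range p) (g := fun t => m * t)]
      · apply sum_subset
        · intro k hk
          rw [mem_image] at hk
          obtain ⟨t, ht, rfl⟩ := hk
          rw [mem_range] at ht ⊢
          have h3 : m * (t + 1) ≤ m * p := Nat.mul_le_mul_left _ ht
          rw [mul_add, mul_one, mul_comm m p, ← hn] at h3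
          omega
        · intro k hk hk2
          simp only [G]
          rw [if_neg, mul_zero]
          rintro ⟨t, ht⟩
          apply hk2
          rw [mem_image]
          refine ⟨t, ?_, ht.symm⟩
          rw [mem_range] at hk ⊢
          by_contra hcon
          have h3 : m * p ≤ m * t := Nat.mul_le_mul_left _ (by omega)
          rw [mul_comm m p, ← hn] at h3
          omega
      · intro a _ b _ hab
        exact Nat.eq_of_mul_eq_mul_left (by omega) hab
    rw [h2]
    have h3 : ∀ t : ℕ, G (m * t) = jacobiSym (Q J 2) m *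
        (fun z : ZMod p => quadraticChar (ZMod p) (z * (((J : ZMod p) + z) *
          ((J : ZMod p) + 2 * z)))) ((m : ZMod p) * (t : ZMod p) + 2) := by
      intro t
      simp only [G]
      rw [if_pos ⟨t, rfl⟩, hn, jacobiSym.mul_right]
      have h4 : jacobiSym (Q J (((m * t : ℕ) : ℤ) + 2)) m = jacobiSym (Q J 2) m := by
        apply jac_congr
        apply Q_congr
        rw [Int.modEq_iff_dvd]
        exact ⟨-t, by push_cast; ring⟩
      have h5 : jacobiSym (Q J (((m * t : ℕ) : ℤ) + 2)) p = quadraticChar (ZMod p)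
          (((J : ZMod p) + ((m : ZMod p) * (t : ZMod p) + 2)) *
            ((J : ZMod p) + 2 * ((m : ZMod p) * (t : ZMod p) + 2))) := by
        rw [← jacobiSym.legendreSym.to_jacobiSym]
        unfold legendreSym Q
        congr 1
        push_cast
        ring
      rw [h4, h5, map_mul (quadraticChar (ZMod p)) ((m : ZMod p) * (t : ZMod p) + 2)]
      push_cast
      ring
    rw [sum_congr rfl (fun t _ => h3 t), ← mul_sum]
    have h6 := Pool.Agent.R343.SunDet.sum_zmod p (fun x : ZMod p =>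
      (fun z : ZMod p => quadraticChar (ZMod p) (z * (((J : ZMod p) + z) *
          ((J : ZMod p) + 2 * z)))) ((m : ZMod p) * x + 2))
    rw [← h6]
    have hmne : (m : ZMod p) ≠ 0 := by
      rw [Ne, ZMod.natCast_eq_zero_iff]
      exact hpm
    have h7 := Equiv.sum_comp ((Equiv.mulLeft₀ (m : ZMod p) hmne).trans (Equiv.addRight 2))
      (fun z : ZMod p => quadraticChar (ZMod p) (z * (((J : ZMod p) + z) *
          ((J : ZMod p) + 2 * z))))
    have h8 : ∑ x : ZMod p, (fun z : ZMod p => quadraticChar (ZMod p) (z * (((J : ZMod p) + z) *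
          ((J : ZMod p) + 2 * z)))) ((m : ZMod p) * x + 2) =
        ∑ z : ZMod p, quadraticChar (ZMod p) (z * (((J : ZMod p) + z) *
          ((J : ZMod p) + 2 * z))) := h7
    rw [h8, sum_three p hp4, mul_zero]

end Pool.Agent.R442.Jac
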