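import Mathlib
import Pool.Agent.Helper848.SqDet
import Pool.Agent.R442.Gen

/-!
# The determinants `D(d,p)` for non-residues `d`
-/

set_option autoImplicit false

namespace Pool.Agent.R442.Gen

open Matrix Finset Pool.Agent.R343.SunDet Pool.Agent.R442.Border Pool.Agent.R442.Circ

variable {p : ℕ} [hp : Fact p.Prime] {s : ℕ}

/-- the matrix of the symbols of `j ^ 2 + d k ^ 2`, `1 ≤ j, k ≤ 2 s + 2` -/
def N (p : ℕ) [Fact p.Prime] (s : ℕ) (d : ℤ) : Matrix (Fin (2 * s + 2)) (Fin (2 * s + 2)) ℤ :=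
  Matrix.of fun j k => legendreSym p ((((j : ℕ) + 1 : ℕ) : ℤ) ^ 2 + d * (((k : ℕ) + 1 : ℕ) : ℤ) ^ 2)

/-- the sum `B(d, p)` -/
def B (p : ℕ) [Fact p.Prime] (s : ℕ) (d : ℤ) : ℤ :=
  ∑ j : Fin (2 * s + 2), legendreSym p ((((j : ℕ) + 1 : ℕ) : ℤ) *
    ((((j : ℕ) + 1 : ℕ) : ℤ) ^ 2 + d))

/-- the determinant of the differences -/
def E (g : ZMod p) (s : ℕ) : ℤ := (Matrix.of fun i j : Fin (2 * s) =>
        f g (i.succ.succ - j.succ.succ) - f g (j.succ.succ - i.succ.succ)).det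

variable (hps : p = 4 * (s + 1) + 1) (g : ZMod p) (hg : orderOf g = 4 * (s + 1))
include hps hg

omit hps hg in
theorem x_res (m : ℕ) (h : (g ^ 2) ^ (2 * s + 1 + 1) = 1) :
    x g (res (2 * s + 1) m : Fin (2 * s + 2)) = (g ^ 2) ^ m := by
  unfold x res
  exact (pow_eq_pow_mod m h).symm

theorem N_sg (d : ℤ) (m : ℕ) (hd : (d : ZMod p) = g * (g ^ 2) ^ m) (i j : Fin (2 * s + 2)) :
    N p s d (sg hps g hg i) (sg hps g hg j) = f g (i - (j + res (2 * s + 1) m)) := by
  unfold N f legendreSym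
  rw [Matrix.of_apply]
  push_cast
  have h1 := sg_sq hps g hg i
  have h2 := sg_sq hps g hg j
  push_cast at h1 h2
  rw [h1, h2, hd, ← x_res g m (g2_pow g hg)]
  have h3 := q_x g hg (j + res (2 * s + 1) m)
  have h4 := x_sub g hg i (j + res (2 * s + 1) m)
  have h5 : x g i + g * x g (res (2 * s + 1) m) * x g j =
      (x g (i - (j + res (2 * s + 1) m)) + g) * x g (j + res (2 * s + 1) m) := by
    rw [add_mul, h4, x_add g hg]
    ring
  rw [h5, map_mul, h3, mul_one]

theorem sum_f : ∑ i : Fin (2 * s + 2), f g i = 0 := by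
  have h : ∑ i : Fin (2 * s + 2), f g (1 - i) = ∑ i, f g i :=
    Equiv.sum_comp (Equiv.subLeft (1 : Fin (2 * s + 2))) (f g)
  rw [sum_congr rfl (fun i _ => f_neg hps g hg i), sum_neg_distrib] at h
  omega

theorem det_N (d : ℤ) (m : ℕ) (hd : (d : ZMod p) = g * (g ^ 2) ^ m) :
    (Matrix.of fun j k => N p s d j k + 1).det = (-1) ^ m *
      (Matrix.of fun i j : Fin (2 * s + 2) => f g (i - j) + 1).det := by
  rw [← det_submatrix_equiv_self (sgE hps g hg)]
  have h1 : (Matrix.of fun j k => N p s d j k + 1).submatrix (sgE hps g hg) (sgE hps g hg) =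
      (Matrix.of fun i j : Fin (2 * s + 2) => f g (i - j) + 1).submatrix id
        (Equiv.addRight (res (2 * s + 1) m)) := by
    ext i j
    simp only [submatrix_apply, Matrix.of_apply, id_eq, Equiv.coe_addRight]
    rw [← N_sg hps g hg d m hd]
    rfl
  rw [h1, Matrix.det_permute', sign_addRight]
  push_cast
  congr 1
  rcases Nat.even_or_odd m with hm | hm
  · rw [hm.neg_one_pow, (hm.mul_left _).neg_one_pow]
  · rw [hm.neg_one_pow, (Odd.mul ⟨s, rfl⟩ hm).neg_one_pow]

theorem det_N' (d : ℤ) (m : ℕ) (hd : (d : ZMod p) = g * (g ^ 2) ^ m) :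
    (Matrix.of fun j k => N p s d j k + 1).det = ((2 * s + 2 : ℕ) : ℤ) ^ 2 *
      ((N p s d).submatrix Fin.succ Fin.succ).det := by
  apply det_add_one (2 * s + 1)
  · intro j
    obtain ⟨i, rfl⟩ := (sgE hps g hg).surjective j
    rw [← Equiv.sum_comp (sgE hps g hg)]
    have : ∀ k, N p s d (sgE hps g hg i) (sgE hps g hg k) =
        f g (i - (k + res (2 * s + 1) m)) := fun k => N_sg hps g hg d m hd i k
    rw [sum_congr rfl (fun k _ => this k)]
    have h2 : ∑ k, f g (i - (k + res (2 * s + 1) m)) = ∑ k, f g k :=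
      Equiv.sum_comp ((Equiv.addRight (res (2 * s + 1) m)).trans (Equiv.subLeft i)) (f g)
    rw [h2, sum_f hps g hg]
  · intro j
    obtain ⟨i, rfl⟩ := (sgE hps g hg).surjective j
    rw [← Equiv.sum_comp (sgE hps g hg)]
    have : ∀ k, N p s d (sgE hps g hg k) (sgE hps g hg i) =
        f g (k - (i + res (2 * s + 1) m)) := fun k => N_sg hps g hg d m hd k i
    rw [sum_congr rfl (fun k _ => this k)]
    have h2 : ∑ k, f g (k - (i + res (2 * s + 1) m)) = ∑ k, f g k :=
      Equiv.sum_comp (Equiv.subRight (i + res (2 * s + 1) m)) (f g)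
    rw [h2, sum_f hps g hg]

omit hps hg in
theorem c_res (m : ℕ) : c (res (2 * s + 1) m : Fin (2 * s + 2)) = (-1) ^ m := by
  unfold c res
  have h : ((-1 : ℤ)) ^ (2 * s + 1 + 1) = 1 := Even.neg_one_pow ⟨s + 1, by ring⟩
  exact (pow_eq_pow_mod m h).symm

theorem B_eq (d : ℤ) (m : ℕ) (hd : (d : ZMod p) = g * (g ^ 2) ^ m) :
    B p s d = (-1) ^ m * BB (f g : Fin (2 * s + 2) → ℤ) := by
  unfold B
  rw [← Equiv.sum_comp (sgE hps g hg)]
  have h1 : ∀ i : Fin (2 * s + 2), legendreSym p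
      (((((sgE hps g hg i : Fin (2 * s + 2)) : ℕ) + 1 : ℕ) : ℤ) *
      (((((sgE hps g hg i : Fin (2 * s + 2)) : ℕ) + 1 : ℕ) : ℤ) ^ 2 + d)) =
      c i * f g (i - res (2 * s + 1) m) := by
    intro i
    rw [legendreSym.mul]
    have h2 : legendreSym p ((((sgE hps g hg i : Fin (2 * s + 2)) : ℕ) + 1 : ℕ) : ℤ) = c i := by
      have := sg_q hps g hg i
      unfold legendreSym
      rw [Int.cast_natCast]
      exact this
    have h3 : legendreSym p ((((((sgE hps g hg i : Fin (2 * s + 2)) : ℕ) + 1 : ℕ) : ℤ)) ^ 2 + d) =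
        f g (i - res (2 * s + 1) m) := by
      unfold f legendreSym
      have h4 := sg_sq hps g hg i
      push_cast at h4 ⊢
      have h4' : (((sgE hps g hg i : Fin (2 * s + 2)) : ℕ) : ZMod p) + 1 =
          (((sg hps g hg i : Fin (2 * s + 2)) : ℕ) : ZMod p) + 1 := rfl
      rw [h4', h4, hd, ← x_res g m (g2_pow g hg)]
      have h5 := q_x g hg (res (2 * s + 1) m : Fin (2 * s + 2))
      have h6 := x_sub g hg i (res (2 * s + 1) m)
      have h7 : x g i + g * x g (res (2 * s + 1) m) =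
          (x g (i - res (2 * s + 1) m) + g) * x g (res (2 * s + 1) m) := by
        rw [add_mul, h6]
      rw [h7, map_mul, h5, mul_one]
    rw [h2, h3]
  rw [sum_congr rfl (fun i _ => h1 i), sum_left, c_res]

/-- the main relation -/
theorem two_D (d : ℤ) (hd : legendreSym p d = -1) :
    2 * ((N p s d).submatrix Fin.succ Fin.succ).det = B p s d * E g s := by
  obtain ⟨m, hm⟩ := nonresidue hps g hg (d : ZMod p) hd
  have h1 := det_N hps g hg d m hm
  have h2 := det_N' hps g hg d m hm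
  have h3 := B_eq hps g hg d m hm
  have h4 := main (f g : Fin (2 * s + 2) → ℤ) (f_neg hps g hg)
  rw [h2] at h1
  change _ = _ * E g s at h4
  have h5 : (-1 : ℤ) ^ m * (-1) ^ m = 1 := by
    rw [← mul_pow]
    norm_num
  have h6 : ((2 * s + 2 : ℕ) : ℤ) ^ 4 * (2 * ((N p s d).submatrix Fin.succ Fin.succ).det) =
      ((2 * s + 2 : ℕ) : ℤ) ^ 4 * (B p s d * E g s) := by
    rw [h3]
    push_cast at h1 h4 ⊢
    linear_combination 2 * (2 * (s : ℤ) + 2) ^ 2 * h1 + 2 * (-1) ^ m * h4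
  have h7 : ((2 * s + 2 : ℕ) : ℤ) ^ 4 ≠ 0 := by positivity
  exact mul_left_cancel₀ h7 h6

/-- `E` is `2 ^ (2 s)` times a square -/
theorem E_sq : ∃ u : ℤ, E g s = 2 ^ (2 * s) * u ^ 2 := by
  let K : Matrix (Fin (2 * s)) (Fin (2 * s)) ℤ := Matrix.of fun i j =>
    (f g (i.succ.succ - j.succ.succ : Fin (2 * s + 2)) - f g (j.succ.succ - i.succ.succ)) / 2
  have h2 : ∀ i j : Fin (2 * s + 2), 2 * ((f g i - f g j) / 2) = f g i - f g j := by
    intro i j
    rcases f_sq hps g hg i with h | h <;> rcases f_sq hps g hg j with h' | h' <;>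
      rw [h, h'] <;> norm_num
  have h1 : (Matrix.of fun i j : Fin (2 * s) =>
        f g (i.succ.succ - j.succ.succ : Fin (2 * s + 2)) - f g (j.succ.succ - i.succ.succ)) =
        (2 : ℤ) • K := by
    ext i j
    simp only [Matrix.smul_apply, K, Matrix.of_apply, smul_eq_mul]
    rw [h2]
  have h3 := Pool.Agent.Helper848.SqDet.isSquare_int K (fun _ => 0) (by
    intro i j
    have e1 := h2 (i.succ.succ - j.succ.succ) (j.succ.succ - i.succ.succ)
    have e2 := h2 (j.succ.succ - i.succ.succ) (i.succ.succ - j.succ.succ)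
    simp only [K, Matrix.of_apply]
    omega)
  obtain ⟨u, hu⟩ := h3
  refine ⟨u, ?_⟩
  unfold E
  rw [h1, det_smul, hu, Fintype.card_fin]
  ring

end Pool.Agent.R442.Gen
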