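import Mathlib
import Pool.Agent.R442.Rel

/-!
# The square root `t_p` modulo `p`
-/

set_option autoImplicit false

namespace Pool.Agent.R442.Gen

open Matrix Finset Pool.Agent.R343.SunDet Pool.Agent.R442.Border Pool.Agent.R442.Circ

/-! ### Products of factorials and binomial coefficients -/

/-- the product of the binomial coefficients `C(2r, a)`, `a < r` -/
def KK (r : ℕ) : ℕ := ∏ a ∈ range r, (2 * r).choose a

theorem sf_eq (r : ℕ) : ∏ a ∈ range (2 * r + 1), a.factorial =
    (∏ i ∈ range r, (2 * i + 1).factorial) ^ 2 * 2 ^ r * r.factorial := by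
  induction r with
  | zero => simp
  | succ r ih =>
    rw [show 2 * (r + 1) + 1 = (2 * r + 1) + 1 + 1 by ring, prod_range_succ, prod_range_succ, ih,
      prod_range_succ, Nat.factorial_succ (2 * r + 1), Nat.factorial_succ r]
    ring

theorem sf_eq' (r : ℕ) : ∏ a ∈ range (2 * r + 1), a.factorial =
    (∏ a ∈ range r, (a.factorial * (2 * r - a).factorial)) * r.factorial := by
  rw [show 2 * r + 1 = r + (r + 1) by ring, prod_range_add, prod_range_succ', prod_mul_distrib,
    ← prod_range_reflect (fun k => (r + (k + 1)).factorial) r, mul_assoc]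
  congr 2
  refine prod_congr rfl fun k hk => ?_
  rw [mem_range] at hk
  congr 1
  omega

theorem KK_eq (r : ℕ) : KK r * ((∏ i ∈ range r, (2 * i + 1).factorial) ^ 2 * 2 ^ r) =
    (2 * r).factorial ^ r := by
  have h1 : KK r * (∏ a ∈ range r, (a.factorial * (2 * r - a).factorial)) =
      (2 * r).factorial ^ r := by
    unfold KK
    rw [← prod_mul_distrib]
    have : ∀ a ∈ range r, (2 * r).choose a * (a.factorial * (2 * r - a).factorial) =
        (2 * r).factorial := by
      intro a ha
      rw [mem_range] at ha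
      rw [← mul_assoc]
      exact Nat.choose_mul_factorial_mul_factorial (by omega)
    rw [prod_congr rfl this, prod_const, card_range]
  have h2 := sf_eq r
  rw [sf_eq'] at h2
  have h3 := Nat.eq_of_mul_eq_mul_right (Nat.factorial_pos r) h2
  rw [← h3, h1]

theorem prod_choose (s : ℕ) : ∏ a ∈ range (2 * (s + 1)), (2 * (s + 1)).choose a =
    KK (s + 1) ^ 2 * (2 * (s + 1)).choose (s + 1) := by
  have h1 : range (2 * (s + 1)) = range ((s + 1) + (s + 1)) := by congr 1; ring
  rw [h1, prod_range_add, prod_range_succ' (fun x => (2 * (s + 1)).choose (s + 1 + x)) s]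
  have h2 : KK (s + 1) = ∏ a ∈ range s, (2 * (s + 1)).choose (s + 1 + (a + 1)) := by
    unfold KK
    rw [prod_range_succ', Nat.choose_zero_right, mul_one,
      ← prod_range_reflect (fun k => (2 * (s + 1)).choose (k + 1)) s]
    refine prod_congr rfl fun a ha => ?_
    rw [mem_range] at ha
    rw [← Nat.choose_symm (n := 2 * (s + 1)) (k := s + 1 + (a + 1)) (by omega)]
    congr 1
    omega
  rw [← h2]
  unfold KK
  simp only [add_zero]
  ring

variable {p : ℕ} [hp : Fact p.Prime] {s : ℕ}

theorem leg_KK (hps : p = 4 * (s + 1) + 1) : legendreSym p (KK (s + 1) : ℤ) = 1 := by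
  have h := congrArg (fun z : ℕ => legendreSym p (z : ℤ)) (KK_eq (s + 1))
  push_cast at h
  rw [legendreSym.mul, legendreSym.mul] at h
  have hP : (((∏ i ∈ range (s + 1), ((2 * i + 1).factorial : ℤ)) : ℤ) : ZMod p) ≠ 0 := by
    push_cast
    rw [prod_ne_zero_iff]
    intro i hi
    rw [mem_range] at hi
    exact fact_ne_zero p _ (by omega)
  rw [legendreSym.sq_one' p hP, one_mul] at h
  have hpow : ∀ (a : ℤ) (k : ℕ), legendreSym p (a ^ k) = legendreSym p a ^ k := by
    intro a k
    unfold legendreSym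
    push_cast
    rw [map_pow]
  rw [hpow, hpow, leg_two p (s + 1) hps (by omega), leg_fact p (s + 1) hps (by omega)] at h
  have h2 : ((-1 : ℤ) ^ (s + 1)) ^ (s + 1) ≠ 0 := by positivity
  exact mul_right_cancel₀ h2 (by rw [h, one_mul])

variable (hps : p = 4 * (s + 1) + 1) (g : ZMod p) (hg : orderOf g = 4 * (s + 1))
include hps hg

omit hps in
theorem sum_x_pow (e : ℕ) : ∑ i : Fin (2 * s + 2), x g i ^ e =
    if (2 * s + 2) ∣ e then ((2 * s + 2 : ℕ) : ZMod p) else 0 := by
  have h1 : ∀ i : Fin (2 * s + 2), x g i ^ e = ((g ^ 2) ^ e) ^ (i : ℕ) := by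
    intro i
    unfold x
    exact pow_right_comm _ _ _
  rw [sum_congr rfl (fun i _ => h1 i), Fin.sum_univ_eq_sum_range (fun i => ((g ^ 2) ^ e) ^ i)]
  split_ifs with h
  · obtain ⟨t, rfl⟩ := h
    have : (g ^ 2) ^ ((2 * s + 2) * t) = 1 := by
      rw [pow_mul, g2_pow g hg, one_pow]
    rw [this]
    simp
  · have h2 : (g ^ 2) ^ e ≠ 1 := by
      intro h3
      rw [← pow_mul] at h3
      have h4 := orderOf_dvd_of_pow_eq_one h3
      rw [hg] at h4
      apply h
      obtain ⟨t, ht⟩ := h4
      refine ⟨t, ?_⟩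
      have h5 : 2 * e = 2 * ((2 * s + 2) * t) := by rw [ht]; ring
      omega
    have h3 := mul_geom_sum ((g ^ 2) ^ e) (2 * s + 2)
    have h4 : ((g ^ 2) ^ e) ^ (2 * s + 2) = 1 := by
      rw [← pow_mul, mul_comm, pow_mul, g2_pow g hg, one_pow]
    rw [h4, sub_self] at h3
    exact (mul_eq_zero.1 h3).resolve_left (sub_ne_zero.2 h2)

/-- the coefficients -/
def cc (g : ZMod p) (a : ℕ) : ZMod p :=
  if a = 0 then 1 else ((2 * (s + 1)).choose a : ZMod p) * g ^ (2 * (s + 1) - a)

theorem det_mod : (((Matrix.of fun i j : Fin (2 * s + 2) => f g (i - j) + 1).det : ℤ) : ZMod p) =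
    ((2 * s + 2 : ℕ) : ZMod p) ^ (2 * s + 2) * ∏ a : Fin (2 * s + 2), cc (s := s) g a := by
  have h1 : (((Matrix.of fun i j : Fin (2 * s + 2) => f g (i - j) + 1).det : ℤ) : ZMod p) =
      ((Matrix.of fun i j : Fin (2 * s + 2) => f g (i - j) + 1).map
        (Int.castRingHom (ZMod p))).det := by
    rw [← RingHom.mapMatrix_apply, ← RingHom.map_det]
    rfl
  rw [h1]
  have h2 := det_kernel (2 * s + 1) 0 (x g) (fun j => by
      unfold x
      rw [← pow_mul, mul_comm, pow_mul, g2_pow g hg, one_pow])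
    (fun e he1 he2 => by
      rw [sum_x_pow g hg, if_neg]
      intro h
      have := Nat.le_of_dvd he1 h
      omega)
    (fun a => cc (s := s) g a)
    ((Matrix.of fun i j : Fin (2 * s + 2) => f g (i - j) + 1).map
        (Int.castRingHom (ZMod p))) (by
      intro i j
      have e1 : ∀ a : Fin (2 * s + 1 + 1), x g i ^ (a : ℕ) * cc (s := s) g a *
          x g j ^ ((res (2 * s + 1) 0 - a : Fin (2 * s + 1 + 1)) : ℕ) =
          x g (i - j) ^ (a : ℕ) * cc (s := s) g a := by
        intro a
        have e2 : x g j ^ ((res (2 * s + 1) 0 - a : Fin (2 * s + 1 + 1)) : ℕ) *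
            x g j ^ (a : ℕ) = 1 := by
          have hx : x g j ^ (2 * s + 1 + 1) = 1 := by
            unfold x
            rw [← pow_mul, mul_comm, pow_mul, g2_pow g hg, one_pow]
          rw [← pow_fin_add hx, sub_add_cancel]
          have : ((res (2 * s + 1) 0 : Fin (2 * s + 1 + 1)) : ℕ) = 0 := by
            simp [res]
          rw [this, pow_zero]
        have e3 : x g i ^ (a : ℕ) = x g (i - j) ^ (a : ℕ) * x g j ^ (a : ℕ) := by
          rw [← mul_pow, x_sub g hg]
        rw [e3]
        linear_combination x g (i - j) ^ (a : ℕ) * cc (s := s) g a * e2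
      rw [sum_congr rfl (fun a _ => e1 a)]
      rw [Fin.sum_univ_eq_sum_range (fun a => x g (i - j) ^ a * cc (s := s) g a)]
      simp only [Matrix.map_apply, Matrix.of_apply, map_add, map_one, eq_intCast]
      have e4 : ((f g (i - j) : ℤ) : ZMod p) = (x g (i - j) + g) ^ (2 * (s + 1)) := q_pow hps _
      rw [e4, add_pow, sum_range_succ]
      rw [show range (2 * (s + 1)) = range ((2 * s + 1) + 1) from rfl, sum_range_succ',
        sum_range_succ' (fun a => x g (i - j) ^ a * cc (s := s) g a) (2 * s + 1)]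
      have e5 : x g (i - j) ^ (2 * (s + 1)) = 1 := by
        unfold x
        rw [← pow_mul, mul_comm, pow_mul, show 2 * (s + 1) = 2 * s + 1 + 1 by ring,
          g2_pow g hg, one_pow]
      rw [e5, pow_zero, one_mul, Nat.choose_zero_right, Nat.sub_zero,
        g_half hps g hg, Nat.sub_self, pow_zero, Nat.choose_self]
      have e6 : cc (s := s) g 0 = 1 := by simp [cc]
      rw [e6]
      have e7 : ∑ k ∈ range (2 * s + 1), x g (i - j) ^ (k + 1) * g ^ (2 * (s + 1) - (k + 1)) *
          ((2 * (s + 1)).choose (k + 1) : ZMod p) =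
          ∑ k ∈ range (2 * s + 1), x g (i - j) ^ (k + 1) * cc (s := s) g (k + 1) := by
        refine sum_congr rfl fun k _ => ?_
        unfold cc
        rw [if_neg (Nat.succ_ne_zero k)]
        ring
      rw [← e7]
      push_cast
      ring)
  rw [h2, mul_zero, pow_zero, one_mul]

theorem BB_mod : ((Circ.BB (f g : Fin (2 * s + 2) → ℤ) : ℤ) : ZMod p) =
    ((2 * (s + 1)).choose (s + 1) : ZMod p) * g ^ (s + 1) * ((2 * s + 2 : ℕ) : ZMod p) := by
  unfold Circ.BB
  push_cast
  have h1 : ∀ i : Fin (2 * s + 2), ((c i : ℤ) : ZMod p) * ((f g i : ℤ) : ZMod p) =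
      ∑ a ∈ range (2 * (s + 1) + 1), (g ^ (2 * (s + 1) - a) * ((2 * (s + 1)).choose a : ZMod p)) *
        x g i ^ (s + 1 + a) := by
    intro i
    have e4 : ((f g i : ℤ) : ZMod p) = (x g i + g) ^ (2 * (s + 1)) := q_pow hps _
    have e5 : ((c i : ℤ) : ZMod p) = x g i ^ (s + 1) := by
      unfold c x
      push_cast
      rw [← g_half hps g hg, ← pow_mul, ← pow_mul, ← pow_mul]
      congr 1
      ring
    rw [e4, e5, add_pow, mul_sum]
    refine sum_congr rfl fun a _ => ?_
    rw [pow_add]
    ring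
  rw [sum_congr rfl (fun i _ => h1 i), sum_comm]
  have h2 : ∀ a ∈ range (2 * (s + 1) + 1), ∑ i : Fin (2 * s + 2),
      (g ^ (2 * (s + 1) - a) * ((2 * (s + 1)).choose a : ZMod p)) * x g i ^ (s + 1 + a) =
      if a = s + 1 then (g ^ (2 * (s + 1) - a) * ((2 * (s + 1)).choose a : ZMod p)) *
        ((2 * s + 2 : ℕ) : ZMod p) else 0 := by
    intro a ha
    rw [mem_range] at ha
    rw [← mul_sum, sum_x_pow g hg]
    by_cases h : a = s + 1
    · rw [if_pos h, if_pos]
      exact ⟨1, by omega⟩
    · rw [if_neg h, if_neg, mul_zero]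
      rintro ⟨t, ht⟩
      rcases t with _ | _ | t
      · omega
      · omega
      · have : (2 * s + 2) * (t + 1 + 1) = (2 * s + 2) * t + (2 * s + 2) + (2 * s + 2) := by ring
        rw [this] at ht
        have := Nat.zero_le ((2 * s + 2) * t)
        omega
  rw [sum_congr rfl h2, sum_ite_eq']
  rw [if_pos (mem_range.2 (by omega))]
  have : 2 * (s + 1) - (s + 1) = s + 1 := by omega
  rw [this]
  push_cast
  ring

end Pool.Agent.R442.Gen
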