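import Mathlib
import Pool.Agent.R442.ModP

/-!
# The square root `t_p` is a quadratic residue
-/

set_option autoImplicit false

namespace Pool.Agent.R442.Gen

open Matrix Finset Pool.Agent.R343.SunDet Pool.Agent.R442.Border Pool.Agent.R442.Circ

variable {p : ℕ} [hp : Fact p.Prime] {s : ℕ}

theorem sum_sub_range (m : ℕ) : 2 * ∑ a ∈ range m, (m - a) = m * (m + 1) := by
  have h1 : ∑ a ∈ range m, (m - a) = ∑ a ∈ range m, (a + 1) := by
    rw [← sum_range_reflect (fun a => a + 1) m]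
    refine sum_congr rfl fun a ha => ?_
    rw [mem_range] at ha
    omega
  rw [h1]
  clear h1
  induction m with
  | zero => simp
  | succ m ih =>
    rw [sum_range_succ, mul_add, ih]
    ring

variable (hps : p = 4 * (s + 1) + 1) (g : ZMod p) (hg : orderOf g = 4 * (s + 1))
include hps hg

theorem prod_cc : ∏ a : Fin (2 * s + 2), cc (s := s) g a =
    - (((KK (s + 1) : ZMod p)) ^ 2 * ((2 * (s + 1)).choose (s + 1) : ZMod p) *
      ((-1) ^ (s + 1) * g ^ (s + 1))) := by
  rw [Fin.prod_univ_eq_prod_range (fun a => cc (s := s) g a) (2 * s + 2)]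
  have h1 : ∏ a ∈ range (2 * (s + 1)), (((2 * (s + 1)).choose a : ZMod p) *
      g ^ (2 * (s + 1) - a)) = - ∏ a ∈ range (2 * s + 2), cc (s := s) g a := by
    rw [show range (2 * (s + 1)) = range ((2 * s + 1) + 1) from rfl,
      show range (2 * s + 2) = range ((2 * s + 1) + 1) from rfl, prod_range_succ',
      prod_range_succ' (fun a => cc (s := s) g a)]
    have e1 : cc (s := s) g 0 = 1 := by simp [cc]
    rw [e1, Nat.choose_zero_right, Nat.sub_zero, g_half hps g hg]
    have e2 : ∀ k ∈ range (2 * s + 1), ((2 * (s + 1)).choose (k + 1) : ZMod p) *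
        g ^ (2 * (s + 1) - (k + 1)) = cc (s := s) g (k + 1) := by
      intro k _
      unfold cc
      rw [if_neg (Nat.succ_ne_zero k)]
    rw [prod_congr rfl e2]
    push_cast
    ring
  have h2 : ∏ a ∈ range (2 * (s + 1)), g ^ (2 * (s + 1) - a) = (-1) ^ (s + 1) * g ^ (s + 1) := by
    rw [Finset.prod_pow_eq_pow_sum]
    have h3 : ∑ a ∈ range (2 * (s + 1)), (2 * (s + 1) - a) =
        2 * (s + 1) * (s + 1) + (s + 1) := by
      have := sum_sub_range (2 * (s + 1))
      have h4 : 2 * (s + 1) * (2 * (s + 1) + 1) = 2 * (2 * (s + 1) * (s + 1) + (s + 1)) := by ring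
      omega
    rw [h3, pow_add, pow_mul, g_half hps g hg]
  have h5 : ∏ a ∈ range (2 * (s + 1)), ((2 * (s + 1)).choose a : ZMod p) =
      ((KK (s + 1) : ZMod p)) ^ 2 * ((2 * (s + 1)).choose (s + 1) : ZMod p) := by
    have := congrArg (fun z : ℕ => (z : ZMod p)) (prod_choose s)
    push_cast at this
    exact this
  rw [prod_mul_distrib, h2, h5] at h1
  rw [← neg_neg (∏ a ∈ range (2 * s + 2), cc (s := s) g a), ← h1]

theorem u_sq (u : ℤ) (hu : E g s = 2 ^ (2 * s) * u ^ 2) :
    (2 ^ (s + 1) * (u : ZMod p)) ^ 2 = (8 * (KK (s + 1) : ZMod p)) ^ 2 := by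
  have h1 := congrArg (fun z : ℤ => (z : ZMod p)) (Circ.main (f g : Fin (2 * s + 2) → ℤ)
    (f_neg hps g hg))
  change _ = ((((2 * ((s + 1 : ℕ) : ℤ) ^ 2) ^ 2 * (2 * Circ.BB (f g : Fin (2 * s + 2) → ℤ)) *
    E g s : ℤ)) : ZMod p) at h1
  rw [hu, Int.cast_mul, det_mod hps g hg, Int.cast_mul, Int.cast_mul, Int.cast_mul,
    BB_mod hps g hg, prod_cc hps g hg] at h1
  push_cast at h1
  set R : ZMod p := (s : ZMod p) + 1 with hR
  have h4R : 4 * R = -1 := by
    have h : ((4 * (s + 1) + 1 : ℕ) : ZMod p) = 0 := by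
      rw [← hps]
      exact ZMod.natCast_self p
    push_cast at h
    rw [hR]
    linear_combination h
  have h2 : (2 : ZMod p) ≠ 0 := two_ne_zero' p (by omega)
  set A : ZMod p := 2 ^ (2 * s + 2) with hA
  have hAσ : A = (-1) ^ (s + 1) := by
    have h := leg_two p (s + 1) hps (by omega)
    have h3 := legendreSym.eq_pow p 2
    rw [h] at h3
    push_cast at h3
    rw [hA, h3]
    congr 1
    omega
  have hσ : ((-1 : ZMod p) ^ (s + 1)) * (-1) ^ (s + 1) = 1 := by
    rw [← mul_pow]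
    norm_num
  have hAA : A * A = 1 := by rw [hAσ, hσ]
  have hRn : (2 * R) ^ (2 * s + 2) = A := by
    have h : (2 * R) ^ (2 * s + 2) * A = 1 := by
      rw [hA, ← mul_pow]
      have : 2 * R * 2 = -1 := by linear_combination h4R
      rw [this]
      exact Even.neg_one_pow ⟨s + 1, by ring⟩
    calc (2 * R) ^ (2 * s + 2) = (2 * R) ^ (2 * s + 2) * (A * A) := by rw [hAA, mul_one]
      _ = ((2 * R) ^ (2 * s + 2) * A) * A := by ring
      _ = A := by rw [h, one_mul]
  have h2s : (2 : ZMod p) ^ (2 * s) * 4 = A := by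
    rw [hA, pow_add]
    norm_num
  have e1 : 2 * (s : ZMod p) + 2 = 2 * R := by rw [hR]; ring
  rw [e1, hRn] at h1
  set C : ZMod p := ((2 * (s + 1)).choose (s + 1) : ZMod p) with hC
  set K : ZMod p := (KK (s + 1) : ZMod p) with hK
  have hCne : C ≠ 0 := choose_ne_zero p _ _ (by omega) (by omega)
  have hgne : g ^ (s + 1) ≠ 0 := pow_ne_zero _ (g_ne hps g hg)
  have hR0 : R ≠ 0 := by
    intro h
    rw [h, mul_zero] at h4R
    have : (1 : ZMod p) = 0 := by linear_combination h4R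
    exact one_ne_zero this
  have hA0 : A ≠ 0 := by
    intro h
    rw [h, mul_zero] at hAA
    exact zero_ne_one hAA
  -- cancel
  have h3 : (C * g ^ (s + 1) * A * R ^ 2 * 4) * (- (K ^ 2 * (-1) ^ (s + 1))) =
      (C * g ^ (s + 1) * A * R ^ 2 * 4) * (R ^ 3 * (u : ZMod p) ^ 2) := by
    have : (C * g ^ (s + 1) * A * R ^ 2 * 4) * (R ^ 3 * (u : ZMod p) ^ 2) =
      (C * g ^ (s + 1) * ((2 : ZMod p) ^ (2 * s) * 4) * R ^ 2 * 4) *
        (R ^ 3 * (u : ZMod p) ^ 2) := by rw [h2s]
    rw [this]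
    linear_combination h1
  have h4 : C * g ^ (s + 1) * A * R ^ 2 * 4 ≠ 0 := by
    have : (4 : ZMod p) ≠ 0 := by
      have h : (4 : ZMod p) = 2 * 2 := by norm_num
      rw [h]
      exact mul_ne_zero h2 h2
    exact mul_ne_zero (mul_ne_zero (mul_ne_zero (mul_ne_zero hCne hgne) hA0) (pow_ne_zero _ hR0))
      this
  have h5 := mul_left_cancel₀ h4 h3
  have hR3 : 64 * R ^ 3 = -1 := by
    have : 64 * R ^ 3 = (4 * R) ^ 3 := by ring
    rw [this, h4R]
    norm_num
  have h6 : (u : ZMod p) ^ 2 = 64 * K ^ 2 * (-1) ^ (s + 1) := by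
    linear_combination 64 * h5 + (u : ZMod p) ^ 2 * hR3
  have h7 : (2 ^ (s + 1) * (u : ZMod p)) ^ 2 = A * (u : ZMod p) ^ 2 := by
    rw [hA, mul_pow, ← pow_mul]
    congr 2
    ring
  rw [h7, h6, hAσ]
  linear_combination 64 * K ^ 2 * hσ

theorem leg_u (u : ℤ) (hu : E g s = 2 ^ (2 * s) * u ^ 2) : legendreSym p u = 1 := by
  have h1 := u_sq hps g hg u hu
  have hq : legendreSym p (2 ^ (s + 1) * u) = legendreSym p (8 * (KK (s + 1) : ℤ)) := by
    unfold legendreSym
    push_cast
    rcases sq_eq_sq_iff_eq_or_eq_neg.1 h1 with h | h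
    · rw [h]
    · rw [h, ← neg_one_mul, map_mul, q_neg_one hps g hg, one_mul]
  have hpow : ∀ (a : ℤ) (k : ℕ), legendreSym p (a ^ k) = legendreSym p a ^ k := by
    intro a k
    unfold legendreSym
    push_cast
    rw [map_pow]
  have h8 : (8 : ℤ) = 2 ^ 3 := by norm_num
  rw [legendreSym.mul, legendreSym.mul, h8, hpow, hpow, leg_KK hps,
    leg_two p (s + 1) hps (by omega), mul_one] at hq
  rcases Nat.even_or_odd (s + 1) with h | h
  · rw [h.neg_one_pow] at hq
    simpa using hq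
  · rw [h.neg_one_pow, h.neg_one_pow] at hq
    norm_num at hq
    exact hq

theorem N_row (d : ℤ) (hd : legendreSym p d = -1) (j : Fin (2 * s + 2)) :
    ∑ k, N p s d j k = 0 := by
  obtain ⟨m, hm⟩ := nonresidue hps g hg (d : ZMod p) hd
  obtain ⟨i, rfl⟩ := (sgE hps g hg).surjective j
  rw [← Equiv.sum_comp (sgE hps g hg)]
  have : ∀ k, N p s d (sgE hps g hg i) (sgE hps g hg k) =
      f g (i - (k + res (2 * s + 1) m)) := fun k => N_sg hps g hg d m hm i k
  rw [sum_congr rfl (fun k _ => this k)]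
  have h2 : ∑ k, f g (i - (k + res (2 * s + 1) m)) = ∑ k, f g k :=
    Equiv.sum_comp ((Equiv.addRight (res (2 * s + 1) m)).trans (Equiv.subLeft i)) (f g)
  rw [h2, sum_f hps g hg]

theorem det_N_zero (d : ℤ) (hd : legendreSym p d = -1) : (N p s d).det = 0 := by
  apply Matrix.exists_mulVec_eq_zero_iff.1
  refine ⟨fun _ => 1, ?_, ?_⟩
  · intro h
    have := congrFun h 0
    simp at this
  · ext j
    simp only [Matrix.mulVec, dotProduct, mul_one, Pi.zero_apply]
    exact N_row hps g hg d hd j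

/-- the bordered matrix -/
theorem det_bordered (d : ℤ) (hd : legendreSym p d = -1) :
    (fromBlocks (0 : Matrix Unit Unit ℤ) (Matrix.of fun _ _ => -1) (Matrix.of fun _ _ => 1)
      (N p s d)).det = ((2 * s + 2 : ℕ) : ℤ) ^ 2 *
      ((N p s d).submatrix Fin.succ Fin.succ).det := by
  obtain ⟨m, hm⟩ := nonresidue hps g hg (d : ZMod p) hd
  rw [← det_N' hps g hg d m hm]
  have h1 : (fromBlocks (1 : Matrix Unit Unit ℤ) (Matrix.of fun _ _ => -1)
      (Matrix.of fun _ _ => 1) (N p s d)).det = (Matrix.of fun j k => N p s d j k + 1).det := by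
    rw [det_fromBlocks_one₁₁]
    congr 1
  have h2 : fromBlocks (1 : Matrix Unit Unit ℤ) (Matrix.of fun _ _ => -1)
      (Matrix.of fun _ _ => 1) (N p s d) =
      (fromBlocks (0 : Matrix Unit Unit ℤ) (Matrix.of fun _ _ => -1) (Matrix.of fun _ _ => 1)
      (N p s d)).updateRow (Sum.inl ()) ((fromBlocks (0 : Matrix Unit Unit ℤ)
        (Matrix.of fun _ _ => -1) (Matrix.of fun _ _ => 1) (N p s d)) (Sum.inl ()) +
        Pi.single (Sum.inl ()) 1) := by
    ext i j
    rw [updateRow_apply]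
    rcases i with i | i <;> rcases j with j | j <;> simp [Pi.single_apply]
  have h3 : ((fromBlocks (0 : Matrix Unit Unit ℤ) (Matrix.of fun _ _ => -1)
      (Matrix.of fun _ _ => 1) (N p s d)).updateRow (Sum.inl ())
        (Pi.single (Sum.inl ()) 1)).det = 0 := by
    have h4 : (fromBlocks (0 : Matrix Unit Unit ℤ) (Matrix.of fun _ _ => -1)
      (Matrix.of fun _ _ => 1) (N p s d)).updateRow (Sum.inl ()) (Pi.single (Sum.inl ()) 1) =
      fromBlocks (1 : Matrix Unit Unit ℤ) 0 (Matrix.of fun _ _ => 1) (N p s d) := by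
      ext i j
      rw [updateRow_apply]
      rcases i with i | i <;> rcases j with j | j <;> simp [Pi.single_apply]
    rw [h4, det_fromBlocks_zero₁₂, det_one, one_mul, det_N_zero hps g hg d hd]
  rw [h2, det_updateRow_add, updateRow_eq_self, h3, add_zero] at h1
  exact h1

end Pool.Agent.R442.Gen
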